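import Mathlib
import Pool.Agent.Helper26.AF.Defs
import Pool.Agent.Helper26.AF.Goals2

/-!
Project AL (MP_af6c86_pr, second theorem): the limit `p_g(l)` exists for every `g` and `l`, with an exact
formula.  Definitions.
-/

namespace Pool.Agent.Helper26.AL

open Finset Pool.Agent.Helper26.AF

/-! ### Kernels (cubic multigraphs as pairings) and the coefficients -/

/-- The number of connected components of a pairing: `H` is the set of half-edges, `τ` the pairing,
`v` gives the vertex of a half-edge. -/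
noncomputable def cmq {H W : Type} (τ : Equiv.Perm H) (v : H → W) : ℕ :=
  Nat.card (Quot (fun a b : H => b = τ a ∨ v b = v a))

/-- The cubic multigraph given by the pairing `κ` of the half-edges `Fin (2 r) × Fin 3` embeds on the
orientable surface of genus `g`: some rotation system `σ` satisfies `2 c + 3 r ≤ 2 r + f + 2 g`. -/
def EmbX (g : ℕ) {r : ℕ} (κ : Equiv.Perm (KX r)) : Prop :=
  ∃ σ : Equiv.Perm (KX r), RotX σ ∧ 2 * cmq κ Prod.fst + r ≤ orb (σ * κ) + 2 * g

/-- The weighted number of cubic multigraphs with `2 r` vertices which embed on the surface of genus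
`g`, divided by `(2 r)!`: every cubic multigraph with labelled vertices has the weight (number of its
pairings) / `6 ^ (2 r)`. -/
noncomputable def eg (g r : ℕ) : ℝ :=
  (Nat.card {κ : Equiv.Perm (KX r) // IsPair κ ∧ EmbX g κ} : ℝ) /
    (((2 * r).factorial : ℝ) * 36 ^ r)

/-- The coefficients of the quotient of the two power series `∑ eg g r z^r` and `∑ ee r z^r`. -/
noncomputable def bb (g r : ℕ) : ℝ :=
  PowerSeries.coeff r (PowerSeries.mk (eg g) * (PowerSeries.mk ee)⁻¹)

/-- The coefficients of the inverse of `∑ ee r z^r`. -/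
noncomputable def dd (r : ℕ) : ℝ := PowerSeries.coeff r (PowerSeries.mk ee)⁻¹

/-- The factor depending on `l`. -/
noncomputable def JJ (l : ℝ) (r : ℕ) : ℝ :=
  if r = 0 then 1 else
    (∫ x in Set.Ioi (0 : ℝ), x ^ (3 * (r : ℝ) / 2 - 1) * Real.exp (-((x - l) ^ 3 + l ^ 3) / 6)) /
      (2 ^ (3 * (r : ℝ) / 2) * Real.Gamma (3 * (r : ℝ) / 2))

/-! ### Auxiliary notions -/

/-- `Embeds` with an optional genus: `none` imposes nothing. -/
def EO {V : Type} (o : Option ℕ) (G : SimpleGraph V) : Prop := ∀ g, o = some g → Embeds G g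

/-- The same for kernels. -/
def EX (o : Option ℕ) {r : ℕ} (κ : Equiv.Perm (KX r)) : Prop := ∀ g, o = some g → EmbX g κ

/-- The same for pairings with vertices of degree two. -/
def EP (o : Option ℕ) {r N : ℕ} (τ : Equiv.Perm (KX r ⊕ Fin N × Bool)) : Prop :=
  ∀ g, o = some g → ∃ σ : Equiv.Perm (KX r), RotX σ ∧
    2 * cmq τ vt + r ≤ orb (Equiv.sumCongr σ (Equiv.prodCongr (Equiv.refl (Fin N))
      (Equiv.swap false true)) * τ) + 2 * g

/-- The weighted numbers of kernels (`o = none`: all, `o = some g`: genus at most `g`). -/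
noncomputable def eo (o : Option ℕ) (r : ℕ) : ℝ :=
  (Nat.card {κ : Equiv.Perm (KX r) // IsPair κ ∧ EX o κ} : ℝ) / (((2 * r).factorial : ℝ) * 36 ^ r)

/-- All components are complex (at least one more edge than vertices). -/
def CXG {V : Type} (G : SimpleGraph V) : Prop := ∀ Q : Finset V, IsComp G Q → #Q + 1 ≤ eIn G Q

/-- All components are complex with excess at most `R`. -/
def CXR {V : Type} (R : ℕ) (G : SimpleGraph V) : Prop :=
  ∀ Q : Finset V, IsComp G Q → #Q + 1 ≤ eIn G Q ∧ eIn G Q ≤ #Q + R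

/-- The number of connected components. -/
noncomputable def cc {V : Type} (G : SimpleGraph V) : ℕ := Nat.card G.ConnectedComponent

/-- No edge leaves `U`. -/
def Clo {V : Type} (G : SimpleGraph V) (U : Finset V) : Prop := ∀ x y, G.Adj x y → x ∈ U → y ∈ U

/-- The graph induced on `U`, read on `Fin #U`. -/
def gi {n : ℕ} (G : SimpleGraph (Fin n)) (U : Finset (Fin n)) : SimpleGraph (Fin #U) :=
  G.comap (U.orderEmbOfFin rfl)

open Classical in
/-- The complex components with excess at most `R`. -/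
noncomputable def cxs {n : ℕ} (R : ℕ) (G : SimpleGraph (Fin n)) : Finset (Finset (Fin n)) :=
  univ.filter (fun Q => IsComp G Q ∧ #Q + 1 ≤ eIn G Q ∧ eIn G Q ≤ #Q + R)

/-- The sum of `excess + 1` over the complex components with excess at most `R`. -/
noncomputable def ZR {n : ℕ} (R : ℕ) (G : SimpleGraph (Fin n)) : ℕ :=
  ∑ Q ∈ cxs R G, (eIn G Q + 1 - #Q)

/-- The number of graphs on `Fin k` with `k + r` edges, all components complex, genus condition `o`. -/
noncomputable def co (o : Option ℕ) (k r : ℕ) : ℕ :=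
  Nat.card {G : SimpleGraph (Fin k) // CXG G ∧ ne G = k + r ∧ EO o G}

/-- The number of cores on `Fin s` with `s + r` edges (minimal degree at least two, all components
complex, genus condition `o`). -/
noncomputable def ko (o : Option ℕ) (s r : ℕ) : ℕ :=
  Nat.card {G : SimpleGraph (Fin s) // (∀ v, 2 ≤ dg G v) ∧ CXG G ∧ ne G = s + r ∧ EO o G}

open Classical in
/-- The number of graphs with all components complex, signed by the number of components. -/
noncomputable def ds (k r : ℕ) : ℝ :=
  ∑ G : SimpleGraph (Fin k), if CXG G ∧ ne G = k + r then (-1 : ℝ) ^ cc G else 0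

open Classical in
/-- The Moebius inverted numbers. -/
noncomputable def mg (g k r : ℕ) : ℝ :=
  ∑ j ∈ range (k + 1), (k.choose j : ℝ) * ∑ H₁ : SimpleGraph (Fin j),
    ∑ H₂ : SimpleGraph (Fin (k - j)),
      if CXG H₁ ∧ Embeds H₁ g ∧ CXG H₂ ∧ ne H₁ + ne H₂ = k + r then (-1 : ℝ) ^ cc H₂ else 0

/-- The number of pairs which touch a `k`-set. -/
def MM (n k : ℕ) : ℕ := k * (n - k) + k.choose 2

/-- The contribution of total excess `r` to the probability. -/
noncomputable def TN (n : ℕ) (p : ℝ) (g r : ℕ) : ℝ :=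
  ∑ k ∈ range (n + 1), (n.choose k : ℝ) * (1 - p) ^ MM n k * ((p / (1 - p)) ^ (k + r) * mg g k r)

/-- The normalising sequence `k! e^k k^(a-1)`. -/
noncomputable def nrm (a : ℝ) (k : ℕ) : ℝ := (k.factorial : ℝ) * Real.exp k * (k : ℝ) ^ (a - 1)

/-- `f k` is asymptotic to `β k! e^k k^(3r/2-1) / (2^(3r/2) Γ(3r/2))`. -/
def AS (f : ℕ → ℝ) (r : ℕ) (β : ℝ) : Prop :=
  Filter.Tendsto (fun k : ℕ => f k / nrm (3 * (r : ℝ) / 2) k) Filter.atTop
    (nhds (β / (2 ^ (3 * (r : ℝ) / 2) * Real.Gamma (3 * (r : ℝ) / 2))))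

end Pool.Agent.Helper26.AL
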