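import Mathlib
import Pool.Agent.Helper26.AL.Defs
import Pool.Agent.Helper26.AF.Goals
import Pool.Agent.Helper16.AF.CORI

/-!
Project AL (MP_af6c86_pr, second theorem: `p_g(l)` exists and has an exact formula).  Statements of the
packets, with complete proofs in the docstrings.  Part A: genus of glued graphs, forests, closed sets,
the identities in the binomial random graph.  The theorems `goalXXX` of project AF (all proved, see
`Pool/Agent/Helper26/AF/All.lean`: `okMONO`, `okUG`, ...) may be used everywhere; every packet may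
take other statements `StmtXXX` as hypotheses.
-/

namespace Pool.Agent.Helper26.AL

open Finset Filter Topology Pool.Agent.Helper26.AF

/-! ### Genus -/

/-- PACKET ISO (isolated vertices and relabelling do not matter).  Proof.  The darts of `Γ.map e`
correspond to the darts of `Γ` by `e`, rotation systems of one graph become rotation systems of the other
(in both directions), with the same number of orbits of `σ * rev`.  With `d = card V - card W`: the
isolated vertices of `Γ.map e` are the images of the isolated vertices of `Γ` and the `d` vertices outside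
the range, so `faces` grows by `d`; the components are the images of the components of `Γ` and `d`
singletons; `ne` is unchanged.  So the inequality `2 c + e ≤ v + f + 2 g` becomes `2 (c + d) + e ≤
(v + d) + (f + d) + 2 g`, which is equivalent.  (Compare `Pool/Agent/Helper5/AF/GCO.lean`.) -/
def StmtISO : Prop := ∀ (V W : Type) [Fintype V] [DecidableEq V] [Fintype W] [DecidableEq W]
  (e : W ↪ V) (Γ : SimpleGraph W) (g : ℕ), Embeds (Γ.map e) g ↔ Embeds Γ g

/-- PACKET GLU (disjoint unions).  Proof.  A dart of `G` has both ends in `U` or both ends outside `U`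
(`Clo` and symmetry of `G`), so `(gi G U).Dart ⊕ (gi G Uᶜ).Dart ≃ G.Dart` (by the two order
embeddings).  Let `σ` correspond to `σ₁ ⊕ σ₂`.  It is a rotation system (`IsRot`), `rev G` corresponds to
`rev ⊕ rev`, so the orbits of `σ * rev G` are those of `σ₁ * rev` and `σ₂ * rev`; isolated vertices,
edges, vertices and components of `G` also split (`ConnectedComponent G ≃` sum: no walk leaves `U` or
`Uᶜ`).  Add the two inequalities. -/
def StmtGLU : Prop := ∀ (n : ℕ) (G : SimpleGraph (Fin n)) (U : Finset (Fin n)) (g₁ g₂ : ℕ), Clo G U →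
  Embeds (gi G U) g₁ → Embeds (gi G Uᶜ) g₂ → Embeds G (g₁ + g₂)

/-- PACKET PEN (adding a pendant edge).  Proof.  `G₀ = G.deleteEdges {s(x, y)}`, `x` is isolated in `G₀`;
`σ₀` a rotation system of `G₀` with the inequality.  The darts of `G` are those of `G₀` and `d = (y, x)`,
`d' = (x, y)`.  (i) If `y` is isolated in `G₀`: `σ = σ₀` on the old darts, `σ d = d`, `σ d' = d'`.  `σ * rev`
exchanges `d` and `d'`: one more orbit, two isolated vertices less.  (ii) Otherwise let `d₁` be a dart of
`G₀` at `y`; `σ d₁ = d`, `σ d = σ₀ d₁`, `σ d' = d'`, `σ = σ₀` elsewhere.  With `φ = σ * rev`: `φ (rev d₁) = d`,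
`φ d = σ d' = d'`, `φ d' = σ d = σ₀ d₁ = φ₀ (rev d₁)`, and `φ = φ₀` elsewhere: the same number of orbits; one
isolated vertex less (`x`).  In both cases `σ` is a rotation system, `faces` decreases by one, the number
of components decreases by one, the number of edges grows by one: `2 (c - 1) + (e + 1) ≤ v + (f - 1) +
2 g`. -/
def StmtPEN : Prop := ∀ (V : Type) [Fintype V] [DecidableEq V] (G : SimpleGraph V) (x y : V) (g : ℕ),
  G.Adj x y → (∀ z, G.Adj x z → z = y) → Embeds (G.deleteEdges {s(x, y)}) g → Embeds G g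

/-- PACKET LFC (removal of a leaf: components).  `e` is an embedding whose range is everything but the
leaf `x`; `y` is the only neighbour of `x`.  Proof.  Two vertices different from `x` are joined in `G` iff
they are joined in `G.comap e` (a path of `G` between them does not pass through the leaf `x`).  So the
components of `G` are the `e`-images of the components of `G.comap e`, except that the one containing
`y` gets the additional vertex `x` and the additional edge `{x, y}`: `#Q` and `eIn` both grow by one.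
`ne`: the edges of `G` are the images of the edges of `G.comap e` and `{x, y}`. -/
def StmtLFC : Prop := ∀ (V W : Type) [Fintype V] [DecidableEq V] [Fintype W] [DecidableEq W]
  (e : W ↪ V) (G : SimpleGraph V) (x y : V), (∀ v, v ∈ Set.range e ↔ v ≠ x) → G.Adj x y →
  (∀ z, G.Adj x z → z = y) → (CXG (G.comap e) ↔ CXG G) ∧ ne G = ne (G.comap e) + 1

/-- PACKET INV0 (invariance under bijections).  Proof.  Transport of components, edge sets and
neighbour sets along the graph isomorphism `G.comap e ≃g G`. -/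
def StmtINV0 : Prop := ∀ (V W : Type) [Fintype V] [DecidableEq V] [Fintype W] [DecidableEq W]
  (e : W ≃ V) (G : SimpleGraph V), (CXG (G.comap e) ↔ CXG G) ∧ (∀ R, CXR R (G.comap e) ↔ CXR R G) ∧
  cc (G.comap e) = cc G ∧ ne (G.comap e) = ne G ∧ (∀ w, dg (G.comap e) w = dg G (e w)) ∧
  ∀ g, Embeds (G.comap e) g ↔ Embeds G g

/-- PACKET LFG (from ISO, PEN, LFC, and `okMONO`).  Proof.  Every `(W.erase x).orderEmbOfFin rfl i` is in
`W`, so it is `W.orderEmbOfFin rfl (e i)` for an embedding `e : Fin #(W.erase x) ↪ Fin #W` whose range is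
everything but the index `x'` of `x`, and `gi G (W.erase x) = (gi G W).comap e`; the only neighbour of
`x'` in `gi G W` is the index `y'` of `y`.  LFC gives the statement for `CXG`.  With `H = gi G W`:
`(H.comap e).map e = H.deleteEdges {s(x', y')}`, so by ISO `Embeds (H.comap e) g` iff
`Embeds (H.deleteEdges _) g`, which implies `Embeds H g` by PEN and follows from it by MONO. -/
def StmtLFG : Prop := ∀ (n : ℕ) (G : SimpleGraph (Fin n)) (W : Finset (Fin n)) (x y : Fin n),
  x ∈ W → y ∈ W → G.Adj x y → (∀ z ∈ W, G.Adj x z → z = y) →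
  (CXG (gi G (W.erase x)) ↔ CXG (gi G W)) ∧ ∀ g, (Embeds (gi G (W.erase x)) g ↔ Embeds (gi G W) g)

/-! ### Forests -/

/-- PACKET FDB (attaching a forest; from LFG, INV0).  `gr S Γ f`, `dep`, `gr_adj_out`, `dep_lt`, `gr_comap`
are in `Pool/Agent/Helper16/AF/CORI.lean`.  Proof.  `G = gr S Γ f`.  Claim: for every `W ⊇ S` with `f x ∈ W`
for all `x ∈ W`, `CXG (gi G W) ↔ CXG (gi G S)` and the same for `Embeds`; induction on `#(W \ S)`.  If
`W ≠ S` take `x ∈ W \ S` with the largest depth.  Its neighbours in `G` are `f x ∈ W` (`f x ≠ x`) and the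
`y ∉ S` with `f y = x`, which are deeper, hence not in `W`.  LFG removes `x`, and `W.erase x` is again closed
under `f` (if `z ∈ W` and `f z = x` then `z ∉ S` is deeper than `x`).  For `W = univ` use INV0 (`gi G univ` is
`G.comap` of a bijection), and `gi G S = Γ` (`gr_comap`). -/
def StmtFDB : Prop := ∀ (k : ℕ) (S : Finset (Fin k)) (Γ : SimpleGraph (Fin #S)) (f : Fin k → Fin k),
  IsFor S f → (CXG (Pool.Agent.Helper16.AF.gr S Γ f) ↔ CXG Γ) ∧
  ∀ g, (Embeds (Pool.Agent.Helper16.AF.gr S Γ f) g ↔ Embeds Γ g)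

/-- PACKET FDA (every complex graph is a core with a forest; from LFG, INV0).  Proof.  Peeling as in
`Pool/Agent/Helper93/AF/COR2.lean`: keep `(S, f)` with `IsFor S f`, `G.Adj x (f x)` for `x ∉ S`, every edge of
`G` is inside `S` or of the form `{x, f x}` with `x ∉ S`, and `CXG (gi G S)`.  Start with `S = univ`, `f = id`
(INV0).  If some `x ∈ S` has at most one neighbour in `S`: it has exactly one, `y`, since otherwise
`{index of x}` is a component of `gi G S` with no edge; replace `S` by `S.erase x` and put `f x = y`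
(LFG).  At the end all degrees in `gi G S` are at least two, and `G = gr S (gi G S) f`. -/
def StmtFDA : Prop := ∀ (k : ℕ) (G : SimpleGraph (Fin k)), CXG G →
  ∃ (S : Finset (Fin k)) (f : Fin k → Fin k), IsFor S f ∧ (∀ v, 2 ≤ dg (gi G S) v) ∧
    G = Pool.Agent.Helper16.AF.gr S (gi G S) f

/-- PACKET FDC (exact 2-core decomposition; from FDA, FDB and `okFOR`; injectivity from CORI:
`sub_of_eq`, `f_eq`, `gr_comap`, `gr_ne`).  Proof.  For `k = 0` both sides are `0`.  For `k ≥ 1` the map
`(S, Γ, f) ↦ gr S Γ f` from the triples with `IsFor S f` and `Γ` a core counted by `ko o #S r` to the graphs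
counted by `co o k r` is a bijection: FDB and `gr_ne` (`#S + r + (k - #S) = k + r`), CORI, FDA.  `S` is not
empty (`k ≥ 1`).  Multiply by `k` and use FOR: `#{f // IsFor S f} * k = #S * k^(k - #S)`. -/
def StmtFDC : Prop := ∀ (o : Option ℕ) (k r : ℕ), 1 ≤ r →
  co o k r * k = ∑ s ∈ Icc 1 k, k.choose s * ko o s r * (s * k ^ (k - s))

/-! ### Complex graphs and closed sets -/

/-- PACKET CXN.  Proof.  `ne G = ∑ eIn G Q` and `card V = ∑ #Q` over the components `Q`, and
`eIn G Q ≥ #Q + 1` for each of them. -/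
def StmtCXN : Prop := ∀ (V : Type) [Fintype V] [DecidableEq V] (G : SimpleGraph V), CXG G →
  Fintype.card V ≤ ne G ∧ (Nonempty V → Fintype.card V + 1 ≤ ne G) ∧
  ∀ Q, IsComp G Q → eIn G Q + Fintype.card V ≤ #Q + ne G

/-- PACKET CLO (closed sets whose components are complex of excess at most `R`).  Proof.  If `U` is
closed, the components of `gi G U` are (read through the order embedding) the components of `G`
contained in `U`, with the same `eIn`.  So `CXR R (gi G U)` says that all components of `G` contained in `U`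
are in `cxs R G`, and then `U` is the union of the family `A` of these components; conversely the union of
a family `A ⊆ cxs R G` is closed and its components are exactly the members of `A`.  `A ↦ A.sup id` is
injective on `(cxs R G).powerset` (components are nonempty and pairwise disjoint). -/
def StmtCLO : Prop := ∀ (n R : ℕ) (G : SimpleGraph (Fin n)),
  (∀ A ⊆ cxs R G, Clo G (A.sup id) ∧ cc (gi G (A.sup id)) = #A ∧
    ne (gi G (A.sup id)) = ∑ Q ∈ A, eIn G Q ∧ #(A.sup id) = ∑ Q ∈ A, #Q) ∧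
  (∀ A ⊆ cxs R G, ∀ B ⊆ cxs R G, (Disjoint (A.sup id) (B.sup id) ↔ Disjoint A B)) ∧
  ∀ Φ : Finset (Fin n) → ℝ, (∑ U : Finset (Fin n), open Classical in
      if Clo G U ∧ CXR R (gi G U) then Φ U else 0) = ∑ A ∈ (cxs R G).powerset, Φ (A.sup id)

/-- PACKET PW1 (Moebius inversion over the family of components; from CLO).  Proof.  By CLO (twice) the
left side is `∑_(A ⊆ cxs) [Embeds (gi G (A.sup id)) g] ∑_(B ⊆ cxs, B disjoint from A) (-1)^(#B)`, and the inner
sum is `∑_(B ⊆ cxs \ A) (-1)^(#B) = [cxs \ A = ∅]` (`Finset.sum_powerset_neg_one_pow_card`). -/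
def StmtPW1 : Prop := ∀ (n R g : ℕ) (G : SimpleGraph (Fin n)),
  (∑ U₁ : Finset (Fin n), ∑ U₂ : Finset (Fin n), open Classical in
    if Disjoint U₁ U₂ ∧ (Clo G U₁ ∧ Clo G U₂) ∧ CXR R (gi G U₁) ∧ Embeds (gi G U₁) g ∧ CXR R (gi G U₂)
      then (-1 : ℝ) ^ cc (gi G U₂) else 0)
  = open Classical in if Embeds (gi G ((cxs R G).sup id)) g then 1 else 0

/-- PACKET PW2 (from CLO).  Proof.  By CLO the left side is `∑_(A, B ⊆ cxs, disjoint) ∏_(Q ∈ A ∪ B)
s^(exc Q)`, `exc Q = eIn G Q - #Q`; every `Q` is in `A`, in `B`, or in none of them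
(`Finset.prod_add` twice, or induction): `∏ (1 + 2 s^(exc Q))`. -/
def StmtPW2 : Prop := ∀ (n R : ℕ) (s : ℝ) (G : SimpleGraph (Fin n)),
  (∑ U₁ : Finset (Fin n), ∑ U₂ : Finset (Fin n), open Classical in
    if Disjoint U₁ U₂ ∧ (Clo G U₁ ∧ Clo G U₂) ∧ CXR R (gi G U₁) ∧ CXR R (gi G U₂)
      then s ^ ((ne (gi G U₁) - #U₁) + (ne (gi G U₂) - #U₂)) else 0)
  = ∏ Q ∈ cxs R G, (1 + 2 * s ^ (eIn G Q - #Q))

/-! ### The binomial random graph -/

/-- PACKET FU (two closed sets with prescribed induced graphs; from `okCYL`).  Proof.  For given `H₁`,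
`H₂` the event `Clo G U₁ ∧ Clo G U₂ ∧ gi G U₁ = H₁ ∧ gi G U₂ = H₂` is the cylinder: the `ne H₁ + ne H₂` edges of
`H₁` and `H₂` (transported) are in, all other pairs which touch `U₁ ∪ U₂` are out.  There are
`MM n (#U₁ + #U₂)` pairs touching `U₁ ∪ U₂`, so its probability is `(1-p)^MM (p/(1-p))^(ne H₁ + ne H₂)`.  Sum
over `H₁`, `H₂`.  (`Pool/Agent/Helper95/AF/CMP.lean` has all of this: `Cyl`, `cyl_iff`, `card_AA`, `card_TT`,
with `q = 2`; connectedness plays no role there.) -/
def StmtFU : Prop := ∀ (n : ℕ) (U₁ U₂ : Finset (Fin n)), Disjoint U₁ U₂ →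
  ∀ (w : SimpleGraph (Fin #U₁) → SimpleGraph (Fin #U₂) → ℝ) (p : ℝ), 0 < p → p < 1 →
  EE p (fun G : SimpleGraph (Fin n) => open Classical in
      if Clo G U₁ ∧ Clo G U₂ then w (gi G U₁) (gi G U₂) else 0)
    = (1 - p) ^ MM n (#U₁ + #U₂) * ∑ H₁ : SimpleGraph (Fin #U₁), ∑ H₂ : SimpleGraph (Fin #U₂),
        w H₁ H₂ * (p / (1 - p)) ^ (ne H₁ + ne H₂)

/-- PACKET FUN (from FU).  Proof.  Sum FU over the disjoint pairs `(U₁, U₂)`; the value depends only on
the sizes `j`, `i`; the number of disjoint pairs with these sizes is `(n choose j) (n-j choose i) =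
(n choose j+i) (j+i choose j)` (`Nat.choose_mul`); put `k = j + i`. -/
def StmtFUN : Prop := ∀ (n : ℕ) (w : ∀ j i : ℕ, SimpleGraph (Fin j) → SimpleGraph (Fin i) → ℝ)
  (p : ℝ), 0 < p → p < 1 →
  EE p (fun G : SimpleGraph (Fin n) => ∑ U₁ : Finset (Fin n), ∑ U₂ : Finset (Fin n),
      open Classical in if Disjoint U₁ U₂ ∧ (Clo G U₁ ∧ Clo G U₂)
        then w #U₁ #U₂ (gi G U₁) (gi G U₂) else 0)
    = ∑ k ∈ range (n + 1), (n.choose k : ℝ) * (1 - p) ^ MM n k *
        ∑ j ∈ range (k + 1), (k.choose j : ℝ) * ∑ H₁ : SimpleGraph (Fin j),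
          ∑ H₂ : SimpleGraph (Fin (k - j)), w j (k - j) H₁ H₂ * (p / (1 - p)) ^ (ne H₁ + ne H₂)

/-- PACKET BIJ (from FU).  Proof.  FU with `p = 1/2`, `U₁ = U`, `U₂ = Uᶜ` (`Clo G U ↔ Clo G Uᶜ`, `#U + #Uᶜ = k`,
`MM k k = k choose 2`, `EE (1/2) f = 2^(-(k choose 2)) ∑ f`, `p/(1-p) = 1`): for every `U`
`∑_G [Clo G U] w (gi G U) (gi G Uᶜ) = ∑_(H₁, H₂) w H₁ H₂`.  Group by `j = #U`, `#Uᶜ = k - j`. -/
def StmtBIJ : Prop := ∀ (k : ℕ) (w : ∀ j i : ℕ, SimpleGraph (Fin j) → SimpleGraph (Fin i) → ℝ),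
  (∑ G : SimpleGraph (Fin k), ∑ U : Finset (Fin k), open Classical in
      if Clo G U then w #U #Uᶜ (gi G U) (gi G Uᶜ) else 0)
    = ∑ j ∈ range (k + 1), (k.choose j : ℝ) * ∑ H₁ : SimpleGraph (Fin j),
        ∑ H₂ : SimpleGraph (Fin (k - j)), w j (k - j) H₁ H₂

/-- PACKET MGE (from CXN).  Proof.  For `CXG H₁` on `Fin j` and `CXG H₂` on `Fin (k - j)` one has
`ne H₁ ≥ j`, `ne H₂ ≥ k - j` (CXN), so `ne H₁ + ne H₂ = k + r` means `ne H₁ = j + i`,
`ne H₂ = (k - j) + (r - i)` for a unique `i ≤ r`. -/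
def StmtMGE : Prop := ∀ (g k r : ℕ), mg g k r = ∑ j ∈ range (k + 1), (k.choose j : ℝ) *
  ∑ i ∈ range (r + 1), (co (some g) j i : ℝ) * ds (k - j) (r - i)

/-- PACKET INV (from BIJ, CLO, CXN).  Proof.  As in MGE the left side is `∑_j (k choose j) ∑_(H₁, H₂)
[CXG H₁] [CXG H₂] [ne H₁ + ne H₂ = k + r] (-1)^(cc H₂)`, by BIJ this is `∑_G ∑_(U closed) [CXG (gi G U)]
[CXG (gi G Uᶜ)] [ne (gi G U) + ne (gi G Uᶜ) = k + r] (-1)^(cc (gi G Uᶜ))`.  For `U` closed `ne (gi G U) +
ne (gi G Uᶜ) = ne G`, and both parts are `CXG` iff `G` is.  For `G` with `CXG G`, `ne G = k + r`, the sum over the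
closed `U` (substitute `U` for `Uᶜ`; CLO with `R = k^2`, since `eIn ≤ k^2`, so that `CXG` and `CXR R` are the
same and `cxs R G` is the family of all components) is `∑_(A ⊆ cxs) (-1)^(#A)`, which is `0` unless there is
no component, that is `k = 0`; and for `k = 0` one has `ne G = 0`, so `r = 0`. -/
def StmtINV : Prop := ∀ (k r : ℕ), (∑ j ∈ range (k + 1), (k.choose j : ℝ) *
  ∑ i ∈ range (r + 1), (co none j i : ℝ) * ds (k - j) (r - i)) = if k = 0 ∧ r = 0 then 1 else 0

/-- PACKET TAI (from FUN, PW1, PW2, CXN).  Proof.  Let `E = (ne (gi G U₁) - #U₁) + (ne (gi G U₂) - #U₂)` be the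
total excess.  Split the sum of PW1 into the terms with `E ≤ R` and those with `E > R`.  In the terms with
`E ≤ R` one may replace `CXR R` by `CXG` (if `CXG H₁`, `CXG H₂` and the total excess is at most `R`, then the
excess of every component is at most `R` by CXN); their expectation is by FUN (with `w j i H₁ H₂ = (-1)^(cc
H₂)` if `CXG H₁ ∧ Embeds H₁ g ∧ CXG H₂ ∧ ne H₁ + ne H₂ ≤ j + i + R`, else `0`), grouping by
`ne H₁ + ne H₂ = k + r` (`≥ k` by CXN), equal to `∑_(r ≤ R) TN n p g r`.  The terms with `E > R` have absolute value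
at most `s^(E - R) ≤ s^(-R) s^E`, so their sum is at most `s^(-R)` times the product of PW2. -/
def StmtTAI : Prop := ∀ (n R g : ℕ) (p s : ℝ), 0 < p → p < 1 → 1 ≤ s →
  |Pr p (fun G : SimpleGraph (Fin n) => Embeds (gi G ((cxs R G).sup id)) g)
      - ∑ r ∈ range (R + 1), TN n p g r|
    ≤ 1 / s ^ R * EE p (fun G : SimpleGraph (Fin n) =>
        ∏ Q ∈ cxs R G, (1 + 2 * s ^ (eIn G Q - #Q)))

/-- PACKET EXE (from `okCMP`, `goalTUPC`).  Proof.  Exactly as EXPD (`Pool/Agent/Helper26/AF/EXPD1.lean`),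
with `cxs R G` (the complex components of excess at most `R`) in the place of the set of all complex
components: there is no condition on the other components.  If `#(cxs R G) = q` then `t^(ZR R G)` is
`(1/q!)` times the sum over the bijections `Q : Fin q → cxs R G` of `∏ t^(r_i + 1)`, at most the sum over all
tuples. -/
def StmtEXE : Prop := ∀ (n R : ℕ) (p t : ℝ), 0 < p → p < 1 → 1 ≤ t →
  EE p (fun G : SimpleGraph (Fin n) => t ^ ZR R G)
    ≤ ∑ q ∈ range (n + 1), (1 / (q.factorial : ℝ)) *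
        ∑ j ∈ Fintype.piFinset (fun _ : Fin q => Icc 1 n),
          ((n.descFactorial (∑ i, j i) : ℝ) / ∏ i, ((j i).factorial : ℝ)) *
          (1 - p) ^ ((∑ i, j i) * (n - ∑ i, j i) + (∑ i, j i).choose 2) *
          ∏ i, yy t (p / (1 - p)) R (j i)

/-- PACKET UPE (from EXE, `okFAL`, `okWR`; compare UPP in `Pool/Agent/Helper69/AF/UPP.lean` and EXPB in
`Pool/Agent/Helper90/AF/EXPB.lean`).  Proof.  `δ, c, C` from WR, `C₁` from FAL, `A k = n^k exp (...)` as in UPP.
The proof of EXPB applied to EXE gives `EE (t^(ZR R G)) ≤ C₁ exp (∑_j yy t u R j A j/j!)`.  For `n` large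
`R ≤ ⌊c n⌋`, and `yy t u R j` is nondecreasing in `R` (`t, u ≥ 0`), so the sum is at most the one of WR. -/
def StmtUPE : Prop := ∀ (l t : ℝ), 1 < t → t < 2 → ∃ C : ℝ, 0 < C ∧ ∀ R : ℕ, ∀ᶠ n : ℕ in atTop,
  EE (pc l n) (fun G : SimpleGraph (Fin n) => t ^ ZR R G) ≤ C

/-- PACKET EQC (from GLU, ISO, CLO, `okMONO`, `okUG`).  Proof.  `U = (cxs R G).sup id` is closed (CLO).
If `Embeds G g`: `(gi G U).map emb ≤ G`, so `Embeds (gi G U) g` by MONO and ISO.  Conversely the components of
`gi G Uᶜ` are components `Q` of `G` which are not in `cxs R G`, so `eIn G Q ≤ #Q` by the hypothesis (`eIn G Q ≤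
#Q + R` always, so `Q ∉ cxs R G` means `eIn G Q < #Q + 1`).  Hence `ZZ (gi G Uᶜ) = 0`, `Embeds (gi G Uᶜ) 0` by UG,
and GLU gives `Embeds G (g + 0)`. -/
def StmtEQC : Prop := ∀ (n R g : ℕ) (G : SimpleGraph (Fin n)),
  (∀ Q, IsComp G Q → eIn G Q ≤ #Q + R) → (Embeds (gi G ((cxs R G).sup id)) g ↔ Embeds G g)

end Pool.Agent.Helper26.AL
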