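import Mathlib
import Pool.Agent.Helper26.AL.Defs

/-!
Project AL (MP_af6c86_pr, second theorem).  Part B: cores and pairings.  See the head of `GoalsA.lean`.
-/

namespace Pool.Agent.Helper26.AL

open Finset Filter Topology Pool.Agent.Helper26.AF

/-- PACKET PAV (PAU for graphs with all components complex).  Proof.  As PAU (proved in
`Pool/Agent/Helper34/AF/PAU.lean`), with `CXG Γ` in the place of `Γ.Connected`.  The only change: `τ` has
no pure set `C` of vertices of degree two.  Such a `C` would be closed under adjacency, so it would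
contain a component `Q` of `Γ` all of whose vertices have degree two; then `2 eIn Γ Q = ∑_Q 2 = 2 #Q`,
against `#Q + 1 ≤ eIn Γ Q`. -/
def StmtPAV : Prop := ∀ (s r : ℕ) (d : Fin s → ℕ), (∀ v, 2 ≤ d v) →
  Nat.card {Γ : SimpleGraph (Fin s) // CXG Γ ∧ (∀ v, dg Γ v = d v) ∧ ne Γ = s + r} *
      ∏ v, (d v).factorial
    ≤ NPn (Σ v : {v : Fin s // d v ≠ 2}, Fin (d v.1)) {v : Fin s // d v = 2}

/-- PACKET NCU (cores with a vertex of degree at least four are few; from PAV and `okNPC`).  Proof.  As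
KFO (`Pool/Agent/Helper4/AF/KFO.lean`), only for the degree functions `d ≥ 2` with `∑ d = 2 (s + r)` and some
`d v ≥ 4`; then the set `B` of the vertices with `d v ≥ 3` has `v = #B` elements with `1 ≤ v ≤ 2 r - 1`
(`∑_B (d - 2) = 2 r`).  For fixed `v` the number of these cores is at most `(s choose v) (2v+2r-1)!!
((s+r-1)!/(v+r-1)!) 6^(-v) v^(2r-v)/(2r-v)!`, at most a constant times `(s choose v) (s+r-1)! ≤ s!
(s+r-1)!/(s-v)! ≤ s! (s+r)^(v+r-1) ≤ s! ((r+1) s)^(v+r-1)` (it is `0` for `v > s`), and `v + r - 1 ≤ 3 r - 2`. -/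
def StmtNCU : Prop := ∀ r : ℕ, 1 ≤ r → ∃ C : ℝ, 0 < C ∧ ∀ s : ℕ, 1 ≤ s →
  (Nat.card {Γ : SimpleGraph (Fin s) // (∀ v, 2 ≤ dg Γ v) ∧ CXG Γ ∧ ne Γ = s + r ∧
    ∃ v, 4 ≤ dg Γ v} : ℝ) ≤ C * (s.factorial : ℝ) * (s : ℝ) ^ (3 * r - 2)

/-- The graphs on `Fin (2 r) ⊕ Fin N` with the first vertices of degree three, the others of degree
two, all components complex, genus condition `o`. -/
def CubG (o : Option ℕ) (r N : ℕ) (Γ : SimpleGraph (Fin (2 * r) ⊕ Fin N)) : Prop :=
  CXG Γ ∧ (∀ v, dg Γ (Sum.inl v) = 3) ∧ (∀ w, dg Γ (Sum.inr w) = 2) ∧ EO o Γ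

/-- PACKET GRX (from pairings to graphs).  Proof.  As GRF (`Pool/Agent/Helper33/AF/GRF.lean`: `Good.E`,
`Good.adj`, `Good.dg_eq`, ...): `Γ = Gr τ`, the darts of `Γ` are the elements of `KX r ⊕ Fin N × Bool`, `rev`
corresponds to `τ`, the degrees are `3` and `2`, and `τ` is determined by `Γ` and labellings of the
neighbours (`6^(2r) 2^N`).  CXG: a component `Q` of `Γ` without cubic vertices would give the pure set
`{w | inr w ∈ Q}`; so `Q` has a cubic vertex and `2 eIn Γ Q = ∑_Q deg = 2 #Q + (number of cubic vertices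
in Q)`, this number is even and positive, so `eIn Γ Q ≥ #Q + 1`.  EO: let `σ` be as in `EP`; `σ` on `KX r`
together with the exchange of the two darts at the vertices of degree two is a rotation system of `Γ`
with the same number of orbits; `cc Γ = cmq τ vt` (no isolated vertices), `ne Γ = 3 r + N`, so
`2 cmq + r ≤ orb + 2 g` is the inequality of `Embeds Γ g`. -/
def StmtGRX : Prop := ∀ (o : Option ℕ) (r N : ℕ), 0 < r →
  Nat.card {τ : Equiv.Perm (KX r ⊕ Fin N × Bool) // IsPair τ ∧ NoPure τ ∧ ¬ Short τ ∧ EP o τ}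
    ≤ 6 ^ (2 * r) * 2 ^ N * Nat.card {Γ : SimpleGraph (Fin (2 * r) ⊕ Fin N) // CubG o r N Γ}

/-- PACKET PAX (from graphs to pairings).  Proof.  For `Γ` with `CubG o r N Γ` choose for every cubic
vertex a bijection `Fin 3 ≃ neighborSet` and for every vertex of degree two a bijection `Bool ≃
neighborSet` (`6^(2r) 2^N` choices in all); `τ h` is the half-edge at the neighbour given by `h` which leads
back.  `(Γ, choices)` is determined by `τ`.  `IsPair`, `NoPure`: see PAV.  `EP o τ`: a rotation system of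
`Γ` with the inequality of `Embeds Γ g` corresponds to a permutation of `KX r ⊕ Fin N × Bool` which
preserves the vertices, is a 3-cycle at each cubic vertex and exchanges the two half-edges of a vertex of
degree two: it is `sumCongr σ (prodCongr refl swap)` with `RotX σ`; `cc Γ = cmq τ vt`, and so on as in GRX. -/
def StmtPAX : Prop := ∀ (o : Option ℕ) (r N : ℕ), 0 < r →
  6 ^ (2 * r) * 2 ^ N * Nat.card {Γ : SimpleGraph (Fin (2 * r) ⊕ Fin N) // CubG o r N Γ}
    ≤ Nat.card {τ : Equiv.Perm (KX r ⊕ Fin N × Bool) // IsPair τ ∧ NoPure τ ∧ EP o τ}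

/-- PACKET SUX (SUB with the number of components; from `okINS`).  Proof.  As SUB
(`Pool/Agent/Helper87/AF/SUB.lean`, theorem `key`), for `X = KX r`, with one more invariant in the
induction: `cmq τ vt = cmq κ Prod.fst`.  For the insertion `τ'` of a new vertex `w` in the pair `{h, τ h}`: in
the quotient for `τ'` the two new darts are identified with `h` and `τ h`; the map `x ↦ emb x` induces a
bijection of the quotients (surjective: the new darts are equivalent to `emb h`; injective: the map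
sending `emb x ↦ [x]`, new darts `↦ [h]`, respects the relation). -/
def StmtSUX : Prop := ∀ (r : ℕ), 1 ≤ r → ∀ (K : Equiv.Perm (KX r) → Prop),
  (∀ κ, K κ → IsPair κ) → ∀ N : ℕ, ∃ S : Set (Equiv.Perm (KX r ⊕ Fin N × Bool)),
    Nat.card S = Nat.card {κ : Equiv.Perm (KX r) // K κ} * ∏ i ∈ range N, (6 * r + 2 * i) ∧
    Nat.card {τ : Equiv.Perm (KX r ⊕ Fin N × Bool) // τ ∈ S ∧ Short τ} ≤
      12 * r * Nat.card {κ : Equiv.Perm (KX r) // K κ} * ∏ i ∈ range N, (6 * r + 2 * i - 1) ∧
    ∀ τ ∈ S, IsPair τ ∧ NoPure τ ∧ ∃ κ, K κ ∧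
      (∀ σ : Equiv.Perm (KX r), orb (Equiv.sumCongr σ (Equiv.prodCongr (Equiv.refl (Fin N))
          (Equiv.swap false true)) * τ) = orb (σ * κ)) ∧
      cmq τ vt = cmq κ Prod.fst

/-- PACKET CNX (exact numbers; from SUX, `okNPC`, `okPMC`).  Proof.  `EP o τ` holds for the `τ` of SUX iff
`EX o κ` holds for the corresponding `κ` (the orbit numbers and the component numbers are the same).
Apply SUX to `K = IsPair ∧ EX o` and to `K' = IsPair ∧ ¬ EX o`: the two sets `S`, `S'` are disjoint (`EP o` holds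
on `S`, fails on `S'`), consist of pairings without pure sets, and have together `(6r-1)!! ∏ (6r + 2i)`
elements (PMC), which is the number `NPn (KX r) (Fin N)` of all pairings without pure sets (NPC).  So
`S ∪ S'` is everything, `S` is the set of all `τ` with `EP o τ`.  Short ones: add the two bounds. -/
def StmtCNX : Prop := ∀ (o : Option ℕ) (r N : ℕ), 1 ≤ r →
  Nat.card {τ : Equiv.Perm (KX r ⊕ Fin N × Bool) // IsPair τ ∧ NoPure τ ∧ EP o τ} =
    Nat.card {κ : Equiv.Perm (KX r) // IsPair κ ∧ EX o κ} * ∏ i ∈ range N, (6 * r + 2 * i) ∧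
  Nat.card {τ : Equiv.Perm (KX r ⊕ Fin N × Bool) // IsPair τ ∧ NoPure τ ∧ Short τ} ≤
    12 * r * Nat.doubleFactorial (6 * r - 1) * ∏ i ∈ range N, (6 * r + 2 * i - 1)

/-- PACKET TRX (relabelling, exact).  Proof.  As TRS (`Pool/Agent/Helper24/AF/TRS.lean`), both directions:
a graph on `Fin (2r+N)` of the right side has exactly `2 r` vertices of degree three (`∑ (deg - 2) =
2 ne - 2 (2r + N) = 2 r`, all degrees are `2` or `3`); for each of the `(2r+N choose 2r)` sets `B` of vertices
fix a bijection of `Fin (2r) ⊕ Fin N` with `Fin (2r+N)` mapping the left summand onto `B`; it gives a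
bijection of the graphs of `CubG` with the graphs of the right side whose set of cubic vertices is
`B`.  Conversely for `CubG` graphs `2 ne = 6 r + 2 N`. -/
def StmtTRX : Prop := ∀ (o : Option ℕ) (r N : ℕ),
  (2 * r + N).choose (2 * r) * Nat.card {Γ : SimpleGraph (Fin (2 * r) ⊕ Fin N) // CubG o r N Γ}
  = Nat.card {Γ : SimpleGraph (Fin (2 * r + N)) // (∀ v, 2 ≤ dg Γ v) ∧ CXG Γ ∧
      ne Γ = 2 * r + N + r ∧ EO o Γ ∧ ∀ v, dg Γ v ≤ 3}

/-- PACKET KAS (asymptotic number of cores; from GRX, PAX, CNX, TRX, NCU).  Proof.  `N = s - 2r`,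
`a = #{κ // IsPair κ ∧ EX o κ}`.  `ko o s r` is the number of cores with all degrees at most three plus at most
`C s! s^(3r-2)` others (NCU).  By TRX, PAX, CNX the first number is at most `(s choose 2r) a
∏_(i<N) (6r + 2i)/(36^r 2^N)`, and by TRX, GRX, CNX at least `(s choose 2r) (a ∏ (6r + 2i) -
12 r (6r-1)!! ∏ (6r + 2i - 1))/(36^r 2^N)`.  `∏_(i<N) (6r + 2i)/2^N = (3r + N - 1)!/(3r-1)! = (s + r - 1)!/(3r-1)!`
(`prod_fact` in `Pool/Agent/Helper70/AF/KGL.lean`), so the main term divided by `s!` is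
`(a/((2r)! 36^r)) ((s+r-1)!/(s-2r)!)/(3r-1)!` and `(s+r-1)!/(s-2r)!` is a product of `3r - 1` factors between
`s - 2r + 1` and `s + r - 1`, so it is asymptotic to `s^(3r-1)`.  The quotient `∏ (6r + 2i - 1)/∏ (6r + 2i)` tends
to `0` (`prod_sq` in the same file: its square is at most `(6r-1)/(6r+2N-1)`). -/
def StmtKAS : Prop := ∀ (o : Option ℕ) (r : ℕ), 1 ≤ r →
  Tendsto (fun s : ℕ => (ko o s r : ℝ) / ((s.factorial : ℝ) * (s : ℝ) ^ (3 * r - 1))) atTop
    (𝓝 (eo o r / ((3 * r - 1).factorial : ℝ)))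

/-- PACKET EEQ (small facts; from `okPMC`).  Proof.  `EX none κ` is true, PMC gives `(6r-1)!!` pairings
(`Fintype.card (KX r) = 6 r = 2 (3 r)`; for `r = 0` there is one permutation).  `EX (some g) κ ↔
EmbX g κ`.  For `r = 0` the type `KX 0` is empty: `RotX` is trivial, `cmq = 0`. -/
def StmtEEQ : Prop := (∀ r, eo none r = ee r) ∧ (∀ g r, eo (some g) r = eg g r) ∧ ee 0 = 1 ∧
  ∀ g, eg g 0 = 1

end Pool.Agent.Helper26.AL
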