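import Mathlib
import Pool.Agent.Helper26.AL.Defs

/-!
Project AL (MP_af6c86_pr, second theorem).  Part C: analysis and assembly.  See the head of
`GoalsA.lean`.  `F(x, l) = ((x - l)^3 + l^3)/6 = x³/6 - l x²/2 + l² x/2`.
-/

namespace Pool.Agent.Helper26.AL

open Finset Filter Topology Pool.Agent.Helper26.AF

/-! ### Analysis -/

/-- PACKET RS (Riemann sums).  Proof.  For `x > 0` let `G_n x = F n ⌈x / h n⌉₊`; for `h (k-1) < x ≤ h k` it is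
`F n k`.  So `h n * ∑_(1 ≤ k ≤ K n) F n k = ∫_(x > 0) G_n x` (for `k > K n` the value is `0`; the integral of a
step function), `|G_n x| ≤ D x`, and `h n * ⌈x / h n⌉₊ → x`, so `G_n x → φ x`.  Dominated convergence
(`MeasureTheory.tendsto_integral_of_dominated_convergence`; `G_n` is measurable as a function of
`⌈x / h n⌉₊`). -/
def StmtRS : Prop := ∀ (h : ℕ → ℝ) (F : ℕ → ℕ → ℝ) (φ D : ℝ → ℝ) (K : ℕ → ℕ),
  (∀ᶠ n in atTop, 0 < h n) → Tendsto h atTop (𝓝 0) → MeasureTheory.IntegrableOn D (Set.Ioi 0) →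
  (∀ n k, K n < k → F n k = 0) →
  (∀ᶠ n in atTop, ∀ k : ℕ, 1 ≤ k → ∀ x : ℝ, h n * ((k : ℝ) - 1) < x → x ≤ h n * k → |F n k| ≤ D x) →
  (∀ x > 0, ∀ κ : ℕ → ℕ, Tendsto (fun n => h n * κ n) atTop (𝓝 x) →
    Tendsto (fun n => F n (κ n)) atTop (𝓝 (φ x))) →
  Tendsto (fun n => h n * ∑ k ∈ Icc 1 (K n), F n k) atTop (𝓝 (∫ x in Set.Ioi (0 : ℝ), φ x))

/-- PACKET GST (local limit from Stirling).  Proof.  `s = κ k`, `m = k - s → ∞` (`s ≤ k/2` for `k` large).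
`m! ~ √(2 π m) (m/e)^m` (Mathlib `Stirling.tendsto_stirlingSeq_sqrt_pi`), so the sequence is
`(1 + o(1)) (1/√(2π)) √(k/m) exp (m log (k/m) - s)`, `k/m → 1`, and `m log (k/m) - s = -(k - s) log (1 - s/k) - s
= -s²/(2k) + O(s³/k²) → -y²/2` (`z = s/k`: `-(1-z) log (1-z) = z - z²/2 + O(z³)`). -/
def StmtGST : Prop := ∀ (κ : ℕ → ℕ) (y : ℝ), 0 < y →
  Tendsto (fun k : ℕ => (κ k : ℝ) / Real.sqrt k) atTop (𝓝 y) →
  Tendsto (fun k : ℕ => (k : ℝ) ^ (k - κ k) * Real.exp (-(k : ℝ)) * Real.sqrt k /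
    ((k - κ k).factorial : ℝ)) atTop (𝓝 (Real.exp (-(y ^ 2) / 2) / Real.sqrt (2 * Real.pi)))

/-- PACKET GAI (a Gaussian integral).  Proof.  `∫_0^∞ y^(3r) e^(-y²/2) dy = 2^((3r-1)/2) Γ((3r+1)/2)`
(Mathlib `integral_rpow_mul_exp_neg_mul_rpow` with `p = 2`, `b = 1/2`), and `Γ(3r/2) Γ(3r/2 + 1/2) =
2^(1 - 3r) √π Γ(3r)` (`Real.Gamma_mul_Gamma_add_half`), `Γ(3r) = (3r-1)!`. -/
def StmtGAI : Prop := ∀ r : ℕ, 1 ≤ r →
  (∫ y in Set.Ioi (0 : ℝ), y ^ (3 * r) * (Real.exp (-(y ^ 2) / 2) / Real.sqrt (2 * Real.pi)))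
    = ((3 * r - 1).factorial : ℝ) / (2 ^ (3 * (r : ℝ) / 2) * Real.Gamma (3 * (r : ℝ) / 2))

/-- PACKET GAU (from cores to graphs; from RS, GST, GAI, `okPOI`).  Proof.  `a = 3r/2`.  For `k ≥ 1`
`c k/nrm a k = ∑_(1 ≤ s ≤ k) (h s/s!) s k^(k-s)/((k-s)! k e^k k^(a-1))`, and with `s^(3r) = (s/√k)^(3r) k^a` this is
`h_k ∑_(1 ≤ s ≤ k) F_k(s)`, `h_k = 1/√k`, `F_k(s) = (h s/(s! s^(3r-1))) (s/√k)^(3r) (k^(k-s) e^(-k) √k/(k-s)!)`;
put `F_k(s) = 0` for `s > k`.  Limit `κ y^(3r) e^(-y²/2)/√(2π)` by GST.  Domination: the first factor is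
bounded, POI with `δ = 1/2` bounds the last factor by `C exp (-s²/(4k))`; for `(s-1)/√k < x ≤ s/√k` the
product is at most `C' (x+1)^(3r) exp (-x²/4)`.  RS and GAI. -/
def StmtGAU : Prop := ∀ (r : ℕ) (κ : ℝ) (h c : ℕ → ℝ), 1 ≤ r →
  Tendsto (fun s : ℕ => h s / ((s.factorial : ℝ) * (s : ℝ) ^ (3 * r - 1))) atTop (𝓝 κ) →
  (∀ k : ℕ, c k * k = ∑ s ∈ Icc 1 k, (k.choose s : ℝ) * h s * (s * (k : ℝ) ^ (k - s))) →
  AS c r (κ * ((3 * r - 1).factorial : ℝ))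

/-- PACKET CNV (convolution of asymptotics; from RS).  Proof.  `a = 3i/2`, `b = 3j/2`, both `≥ 3/2`.  For
`1 ≤ m ≤ k - 1` the term divided by `nrm (a+b) k` is `(1/k) F_k(m)` with `F_k(m) = (f m/nrm a m)
(h (k-m)/nrm b (k-m)) (m/k)^(a-1) (1 - m/k)^(b-1)`; put `F_k(m) = 0` for other `m`.  The two terms `m = 0` and
`m = k` tend to `0` (`f 0 h k/nrm (a+b) k = f 0 (h k/nrm b k) k^(-a)`).  The two quotients are bounded and
converge to `α/(2^a Γ(a))`, `β/(2^b Γ(b))`.  RS with `h_k = 1/k`, `D = C` on `(0, 1]` and `0` beyond (note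
`F_k(m) = 0` for `m ≥ k`), `φ x = αβ x^(a-1) (1-x)^(b-1)/(2^(a+b) Γ(a) Γ(b))` for `x < 1` and `0` for `x ≥ 1` (for
`m/k → 1` the factor `(1 - m/k)^(b-1)` tends to `0`).  `∫_0^1 x^(a-1) (1-x)^(b-1) dx = Γ(a) Γ(b)/Γ(a+b)`
(`Complex.Gamma_mul_Gamma_eq_betaIntegral`). -/
def StmtCNV : Prop := ∀ (i j : ℕ) (f h : ℕ → ℝ) (α β : ℝ), 1 ≤ i → 1 ≤ j → AS f i α → AS h j β →
  AS (fun k => ∑ m ∈ range (k + 1), (k.choose m : ℝ) * f m * h (k - m)) (i + j) (α * β)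

/-- PACKET LMT (pointwise limit).  Proof.  Let `e = l n^(-1/3)`, `p = (1+e)/n`, `k = κ n ~ x n^(2/3)`,
`M = MM n k = k n - k²/2 - k/2`.  Logarithms:
`log (n)_k = k log n - ∑_(i<k) (i/n + i²/(2n²) + O(i³/n³)) = k log n - k²/(2n) - k³/(6n²) + o(1)`;
`(k + r) log p = -(k + r) log n + k e - k e²/2 + o(1)` (`k e³ → 0`);
`(M - k - r) log (1-p) = -M p + o(1) = -k - k e + k²/(2n) + e k²/(2n) + o(1)` (`M p² ≤ 4k/n → 0`).
The sum with `k + r log n` is `-k³/(6n²) - k e²/2 + e k²/(2n) + o(1) → -x³/6 - l² x/2 + l x²/2`. -/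
def StmtLMT : Prop := ∀ (l x : ℝ) (r : ℕ) (κ : ℕ → ℕ), 0 < x →
  Tendsto (fun n : ℕ => (κ n : ℝ) / (n : ℝ) ^ ((2 : ℝ) / 3)) atTop (𝓝 x) →
  Tendsto (fun n : ℕ => (n.descFactorial (κ n) : ℝ) * (1 - pc l n) ^ MM n (κ n) *
      (pc l n / (1 - pc l n)) ^ (κ n + r) * Real.exp (κ n) * (n : ℝ) ^ r) atTop
    (𝓝 (Real.exp (-((x - l) ^ 3 + l ^ 3) / 6)))

/-- PACKET DOM (domination; from `okFAL`).  Proof.  FAL with `δ = 1/2`: `(n)_k (1-p)^M ≤ C n^k exp (-k -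
k³/(12n²) - l k n^(-1/3))`.  `(p/(1-p))^(k+r) = n^(-k-r) (1+e)^(k+r) (1-p)^(-k-r)`, `(1+e)^(k+r) ≤
exp (e (k+r)) = exp (l k n^(-1/3)) exp (l r n^(-1/3))`, `(1-p)^(-k-r) ≤ exp (2p(k+r)) ≤ exp (4 + 4 r)` for `n` large
(`p ≤ 1/2`, `p ≤ 2/n`). -/
def StmtDOM : Prop := ∀ (l : ℝ) (r : ℕ), ∃ C : ℝ, 0 < C ∧ ∃ n₀ : ℕ, ∀ n ≥ n₀, ∀ k ≤ n,
  (n.descFactorial k : ℝ) * (1 - pc l n) ^ MM n k * (pc l n / (1 - pc l n)) ^ (k + r) *
      Real.exp k * (n : ℝ) ^ r ≤ C * Real.exp (-((k : ℝ) ^ 3 / (12 * (n : ℝ) ^ 2)))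

/-- PACKET RIE (from RS, LMT, DOM).  Proof.  `a = 3r/2`.  With `h_n = n^(-2/3)` the sum is `h_n ∑ F_n(k)`,
`F_n(k) = [(n)_k (1-p)^M (p/(1-p))^(k+r) e^k n^r] (k/n^(2/3))^(a-1) (f k/nrm a k)` for `1 ≤ k ≤ n`, else `0`
(`(n choose k) k! = (n)_k`, and `n^(2/3) n^(-r) n^(2(a-1)/3) = 1`).  Limit
`e^(-F(x,l)) x^(a-1) β/(2^a Γ(a))` by LMT; for `k ≥ 1`, `h (k-1) < x ≤ h k`, DOM gives
`|F_n(k)| ≤ C (x+1)^(a-1) exp (-x³/12)` (`a - 1 ≥ 1/2`, `h ≤ 1`), integrable. -/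
def StmtRIE : Prop := ∀ (l : ℝ) (r : ℕ) (f : ℕ → ℝ) (β : ℝ), 1 ≤ r → AS f r β →
  Tendsto (fun n : ℕ => ∑ k ∈ Icc 1 n, (n.choose k : ℝ) * (1 - pc l n) ^ MM n k *
    ((pc l n / (1 - pc l n)) ^ (k + r) * f k)) atTop (𝓝 (β * JJ l r))

/-- PACKET JCO.  Proof.  `F(x,l') - F(x,L) = (L - l') x (x - (L + l'))/2 ≥ -(L - l') (L + l')²/8` for `L ≥ l'`;
with `L = l + 2`, `|l' - l| ≤ 1`: `L - l' ≤ 3`, `(L + l')² ≤ (2|l| + 3)²`.  So the integrand at `l'` is at most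
`exp (3 (2|l|+3)²/8)` times the one at `l + 2`, which is integrable (`F(x,L) ≥ x³/12 - C`).  Continuity at
`l`: dominated convergence with this bound.  (`JJ l 0 = 1`.) -/
def StmtJCO : Prop := ∀ r : ℕ, Continuous (fun l => JJ l r) ∧ (∀ l, 0 ≤ JJ l r) ∧
  ∀ l l' : ℝ, |l' - l| ≤ 1 → JJ l' r ≤ Real.exp (3 * (2 * |l| + 3) ^ 2 / 8) * JJ (l + 2) r

/-! ### Assembly -/

/-- PACKET CAS (from `StmtFDC`, `StmtKAS` and GAU; the statements are repeated as hypotheses).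
Proof.  GAU with `h s = ko o s r`, `c k = co o k r`, `κ = eo o r/(3r-1)!`. -/
def StmtCAS : Prop := ∀ (o : Option ℕ) (r : ℕ), 1 ≤ r → AS (fun k => (co o k r : ℝ)) r (eo o r)

/-- PACKET DAS (from `StmtINV`, `StmtEEQ`, `StmtCXN`, CNV, CAS).  Proof.  Strong induction on `r ≥ 1`.
`co none j 0 = [j = 0]` and `ds m 0 = [m = 0]` (CXN: no graph with all components complex has as many
edges as vertices, except the one on no vertices).  INV for `k ≥ 1`: `ds k r = -co none k r -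
∑_(i=1)^(r-1) ∑_m (k choose m) co none m i ds (k-m) (r-i)`.  By CAS, CNV and induction `AS (ds · r) r β` with
`β = -ee r - ∑_(i=1)^(r-1) ee i dd (r-i)`, which is `dd r` (coefficient of `z^r` in `E E⁻¹ = 1`, `ee 0 = 1`,
`dd 0 = 1`). -/
def StmtDAS : Prop := ∀ r : ℕ, 1 ≤ r → AS (fun k => ds k r) r (dd r)

/-- PACKET MAS (from `StmtMGE`, `StmtEEQ`, `StmtCXN`, CNV, CAS, DAS).  Proof.  MGE: `mg g k r = ds k r +
co (some g) k r + ∑_(i=1)^(r-1) ∑_m (k choose m) co (some g) m i ds (k-m) (r-i)` for `r ≥ 1` (as in DAS), so the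
limit is `dd r + eg g r + ∑_(i=1)^(r-1) eg g i dd (r-i) = bb g r` (`eg g 0 = 1`, `dd 0 = 1`). -/
def StmtMAS : Prop := ∀ (g r : ℕ), 1 ≤ r → AS (fun k => mg g k r) r (bb g r)

/-- PACKET TLM (from MAS, RIE, `StmtCXN`, `StmtEEQ`).  Proof.  `r = 0`: `mg g k 0 = [k = 0]` (CXN; on no
vertices everything embeds), so `TN n p g 0 = 1 = bb g 0 * JJ l 0`.  `r ≥ 1`: the term `k = 0` vanishes
(`mg g 0 r = 0`), RIE. -/
def StmtTLM : Prop := ∀ (g : ℕ) (l : ℝ) (r : ℕ),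
  Tendsto (fun n : ℕ => TN n (pc l n) g r) atTop (𝓝 (bb g r * JJ l r))

/-- PACKET LIP (from TLM, `StmtTAI`, `StmtEQC`, `StmtUPE`, `okUPP`, JCO).  Proof.  `s = 11/10`, `t = 19/10`:
`1 + 2 s^e ≤ 3 s^e ≤ t^(e+1)` for `e ≥ 1` (`3 s ≤ t²`, `s ≤ t`), so the product of TAI is at most `t^(ZR R G)`.
If `Embeds G g` and `Embeds (gi G ((cxs R G).sup id)) g` are not equivalent then (EQC) some component has
`eIn G Q ≥ #Q + R + 1`, so `R + 2 ≤ ZZ G`, which has probability at most `C t^(-R)` for `n` large (UPP).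
So with TAI and UPE there is `C` with: for every `R`, `|Pr (Embeds G g) - ∑_(r ≤ R) TN| ≤ C s^(-R)` for all
large `n`.  With TLM: `P_n = Pr (Embeds)` satisfies `limsup |P_n - ∑_(r ≤ R) bb JJ| ≤ C s^(-R)` for every `R`.
Hence `|bb g r * JJ l r| ≤ 2 C s^(-(r-1))`, summable, and `P_n → ∑'`. -/
def StmtLIP : Prop := ∀ (g : ℕ) (l : ℝ), Summable (fun r => |bb g r| * JJ l r) ∧
  Tendsto (fun n : ℕ => Pr (pc l n) (fun G : SimpleGraph (Fin n) => Embeds G g)) atTop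
    (𝓝 (∑' r, bb g r * JJ l r))

/-- PACKET CTN (from JCO and LIP).  Proof.  At `l₀`: on `|l - l₀| < 1` the terms are bounded by
`exp (...) |bb g r| JJ (l₀ + 2) r`, summable by LIP at `l₀ + 2` (`continuousOn_tsum`). -/
def StmtCTN : Prop := ∀ g : ℕ, Continuous (fun l => ∑' r, bb g r * JJ l r)

/-- PACKET TRD (transfer with a small window; as TR in `Pool/Agent/Helper57/AF/TR.lean`, from
`goalTR1` and `okCHE`).  Proof.  As TR, with `δ` in the place of `1` (`CHE` with `t = δ n^(2/3)/4`). -/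
def StmtTRD : Prop := ∀ (l δ : ℝ) (m : ℕ → ℕ), 0 < δ →
  Tendsto (fun n : ℕ => ((m n : ℝ) - n / 2) / (n : ℝ) ^ ((2 : ℝ) / 3)) atTop (𝓝 (l / 2)) →
  ∀ (P : ∀ n : ℕ, SimpleGraph (Fin n) → Prop), (∀ n G G', G ≤ G' → P n G → P n G') →
  ∀ ε : ℝ, 0 < ε → ∀ᶠ n : ℕ in atTop,
    prm n (m n) (P n) ≤ Pr (pc (l + δ) n) (P n) + ε ∧
    Pr (pc (l - δ) n) (P n) - ε ≤ prm n (m n) (P n)

/-- PACKET FIN (from LIP, CTN, TRD, `okMONO`).  Proof.  `P = ¬ Embeds` is increasing (MONO);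
`prm (Embeds) = 1 - prm (¬ Embeds)` and the same for `Pr` (for `n` large `m n ≤ n choose 2`, so there are graphs
with `m n` edges).  TRD and LIP at `l ± δ`: `p(l + δ) - ε ≤ liminf ≤ limsup ≤ p(l - δ) + ε`, and `p` is continuous
(CTN). -/
def StmtFIN : Prop := ∀ (g : ℕ) (l : ℝ) (m : ℕ → ℕ),
  Tendsto (fun n : ℕ => ((m n : ℝ) - n / 2) / (n : ℝ) ^ ((2 : ℝ) / 3)) atTop (𝓝 (l / 2)) →
  Tendsto (fun n : ℕ => prm n (m n) (fun G => Embeds G g)) atTop (𝓝 (∑' r, bb g r * JJ l r))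

end Pool.Agent.Helper26.AL
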