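import Mathlib
import Pool.Agent.Helper26.AL.GoalsA
import Pool.Agent.Helper26.AL.GoalsB
import Pool.Agent.Helper26.AL.GoalsC

/-! Project AL: packet CAS. -/

namespace Pool.Agent.Helper26.AL

open Finset Filter Topology Pool.Agent.Helper26.AF

theorem goalCAS (hFDC : StmtFDC) (hKAS : StmtKAS) (hGAU : StmtGAU) : StmtCAS := by
  intro o r hr
  have h1 := hGAU r _ (fun s => (ko o s r : ℝ)) (fun k => (co o k r : ℝ)) hr (hKAS o r hr) (by
    intro k
    have h2 := hFDC o k r hr
    have h3 : ((co o k r * k : ℕ) : ℝ) =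
        ((∑ s ∈ Icc 1 k, k.choose s * ko o s r * (s * k ^ (k - s)) : ℕ) : ℝ) := by rw [h2]
    push_cast at h3
    exact h3)
  have h4 : eo o r / ((3 * r - 1).factorial : ℝ) * ((3 * r - 1).factorial : ℝ) = eo o r := by
    field_simp
  rw [h4] at h1
  exact h1

end Pool.Agent.Helper26.AL
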