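import Mathlib
import Pool.Agent.Helper26.AL.GoalsC

/-! Project AL: packet CTN (continuity in the parameter). -/

namespace Pool.Agent.Helper26.AL

open Finset Filter Topology Pool.Agent.Helper26.AF

theorem goalCTN (hJCO : StmtJCO) (hLIP : StmtLIP) : StmtCTN := by
  intro g
  rw [continuous_iff_continuousAt]
  intro l₀
  have h1 : ContinuousOn (fun l => ∑' r, bb g r * JJ l r) (Metric.ball l₀ 1) := by
    refine continuousOn_tsum (u := fun r => Real.exp (3 * (2 * |l₀| + 3) ^ 2 / 8) *
      (|bb g r| * JJ (l₀ + 2) r)) ?_ ?_ ?_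
    · intro r
      exact (continuous_const.mul (hJCO r).1).continuousOn
    · exact (hLIP g (l₀ + 2)).1.mul_left _
    · intro r l hl
      rw [Metric.mem_ball, Real.dist_eq] at hl
      rw [Real.norm_eq_abs, abs_mul, abs_of_nonneg ((hJCO r).2.1 l)]
      have h2 := (hJCO r).2.2 l₀ l hl.le
      calc |bb g r| * JJ l r ≤ |bb g r| * (Real.exp (3 * (2 * |l₀| + 3) ^ 2 / 8) * JJ (l₀ + 2) r) :=
            mul_le_mul_of_nonneg_left h2 (abs_nonneg _)
        _ = _ := by ring
  exact h1.continuousAt (Metric.ball_mem_nhds l₀ one_pos)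

end Pool.Agent.Helper26.AL
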