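import Mathlib
import Pool.Agent.Helper26.AL.GoalsC
import Pool.Agent.Helper74.AF.FAL

/-! Project AL: packet DOM. -/

namespace Pool.Agent.Helper26.AL

open Finset Filter Topology Pool.Agent.Helper26.AF

lemma dom_pc (l : ℝ) (n : ℕ) (hn : (2 * |l|) ^ 3 + 4 ≤ (n : ℝ)) :
    |l / (n : ℝ) ^ ((1 : ℝ) / 3)| ≤ 1 / 2 ∧ 0 < pc l n ∧ pc l n ≤ 2 / n ∧ pc l n ≤ 1 / 2 := by
  have hl : 0 ≤ |l| := abs_nonneg l
  have hN : (0 : ℝ) < n := by
    have : 0 ≤ (2 * |l|) ^ 3 := by positivity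
    linarith
  have h4 : (4 : ℝ) ≤ n := by
    have : 0 ≤ (2 * |l|) ^ 3 := by positivity
    linarith
  have h1 : 2 * |l| ≤ (n : ℝ) ^ ((1 : ℝ) / 3) := by
    have h2 : (2 * |l|) ^ 3 ≤ (n : ℝ) := by linarith
    have h3 : ((2 * |l|) ^ 3) ^ ((1 : ℝ) / 3) ≤ (n : ℝ) ^ ((1 : ℝ) / 3) :=
      Real.rpow_le_rpow (by positivity) h2 (by norm_num)
    have h5 : ((2 * |l|) ^ 3) ^ ((1 : ℝ) / 3) = 2 * |l| := by
      rw [← Real.rpow_natCast, ← Real.rpow_mul (by positivity)]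
      norm_num
    rwa [h5] at h3
  have h2 : 0 < (n : ℝ) ^ ((1 : ℝ) / 3) := by positivity
  have h3 : |l / (n : ℝ) ^ ((1 : ℝ) / 3)| ≤ 1 / 2 := by
    rw [abs_div, abs_of_pos h2, div_le_iff₀ h2]
    linarith
  obtain ⟨h5, h6⟩ := abs_le.1 h3
  refine ⟨h3, ?_, ?_, ?_⟩
  · unfold pc
    apply div_pos _ hN
    linarith
  · unfold pc
    apply div_le_div_of_nonneg_right _ hN.le
    linarith
  · unfold pc
    rw [div_le_iff₀ hN]
    linarith

theorem goalDOM : StmtDOM := by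
  intro l r
  have hFAL : StmtFAL := Pool.Agent.Helper74.AF.goalFAL
  obtain ⟨C, hC, n₀, hF⟩ := hFAL l (1 / 2) (by norm_num) (by norm_num)
  refine ⟨C * Real.exp (|l| * r + 4 + 4 * r), by positivity,
    max n₀ ⌈(2 * |l|) ^ 3 + 4⌉₊, ?_⟩
  intro n hn k hk
  have hn0 : n₀ ≤ n := le_trans (le_max_left _ _) hn
  have hn1 : (2 * |l|) ^ 3 + 4 ≤ (n : ℝ) := by
    have h1 : ⌈(2 * |l|) ^ 3 + 4⌉₊ ≤ n := le_trans (le_max_right _ _) hn
    exact le_trans (Nat.le_ceil _) (by exact_mod_cast h1)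
  obtain ⟨he, hp0, hp2, hp1⟩ := dom_pc l n hn1
  have hN4 : (4 : ℝ) ≤ n := by
    have : 0 ≤ (2 * |l|) ^ 3 := by positivity
    linarith
  have hN : (0 : ℝ) < n := by linarith
  have hkn : (k : ℝ) ≤ n := by exact_mod_cast hk
  have hF' := hF n hn0 k hk
  set p := pc l n with hp
  set e := l / (n : ℝ) ^ ((1 : ℝ) / 3) with hedef
  have h1p : 0 < 1 - p := by linarith
  have hpe : p = (1 + e) / n := rfl
  have hq0 : 0 ≤ p / (1 - p) := (div_pos hp0 h1p).le
  -- p / (1 - p) ≤ exp (e + 2 p) / n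
  have hA : 1 / (1 - p) ≤ Real.exp (2 * p) := by
    have h1 : 1 / (1 - p) ≤ 1 + 2 * p := by
      rw [div_le_iff₀ h1p]
      nlinarith
    have h2 := Real.add_one_le_exp (2 * p)
    linarith
  have hB : 1 + e ≤ Real.exp e := by
    have h2 := Real.add_one_le_exp e
    linarith
  have hq : p / (1 - p) ≤ Real.exp (e + 2 * p) / n := by
    have h1 : p / (1 - p) = (1 + e) * (1 / (1 - p)) / n := by
      rw [hpe]
      field_simp
    rw [h1, Real.exp_add]
    apply div_le_div_of_nonneg_right _ hN.le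
    exact mul_le_mul hB hA (by positivity) (Real.exp_pos _).le
  have hqp : (p / (1 - p)) ^ (k + r) ≤ Real.exp ((e + 2 * p) * (k + r)) / (n : ℝ) ^ (k + r) := by
    have h1 := pow_le_pow_left₀ hq0 hq (k + r)
    rw [div_pow (Real.exp (e + 2 * p)), ← Real.exp_nat_mul] at h1
    have h2 : ((k + r : ℕ) : ℝ) * (e + 2 * p) = (e + 2 * p) * (k + r) := by
      push_cast
      ring
    rwa [h2] at h1
  have hx : (e + 2 * p) * (k + r) ≤ e * k + (|l| * r + 4 + 4 * r) := by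
    have hr : (0 : ℝ) ≤ r := by positivity
    have hk0 : (0 : ℝ) ≤ k := by positivity
    have h1 : e * r ≤ |l| * r := by
      apply mul_le_mul_of_nonneg_right _ hr
      refine le_trans (le_abs_self _) ?_
      rw [hedef, abs_div]
      apply div_le_self (abs_nonneg l)
      rw [abs_of_pos (by positivity)]
      apply Real.one_le_rpow (by linarith) (by norm_num)
    have h2 : p * k ≤ 2 := by
      have h3 : p * k ≤ 2 / n * n := mul_le_mul hp2 hkn hk0 (by positivity)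
      have h4 : 2 / (n : ℝ) * n = 2 := by field_simp
      linarith
    have h3 : p * r ≤ 1 / 2 * r := mul_le_mul_of_nonneg_right hp1 hr
    nlinarith
  have hL : l * k / (n : ℝ) ^ ((1 : ℝ) / 3) = e * k := by
    rw [hedef]
    ring
  rw [hL] at hF'
  have hMM : MM n k = k * (n - k) + k.choose 2 := rfl
  rw [hMM]
  have hpk : 0 ≤ (p / (1 - p)) ^ (k + r) := pow_nonneg hq0 _
  calc (n.descFactorial k : ℝ) * (1 - p) ^ (k * (n - k) + k.choose 2) * (p / (1 - p)) ^ (k + r) *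
      Real.exp k * (n : ℝ) ^ r
      ≤ (C * ((n : ℝ) ^ k * Real.exp (-(k : ℝ) - (1 - 1 / 2) * (k : ℝ) ^ 3 / (6 * (n : ℝ) ^ 2)
          - e * k))) * (Real.exp (e * k + (|l| * r + 4 + 4 * r)) / (n : ℝ) ^ (k + r)) *
      Real.exp k * (n : ℝ) ^ r := by
        have h1 : Real.exp ((e + 2 * p) * (k + r)) / (n : ℝ) ^ (k + r) ≤
            Real.exp (e * k + (|l| * r + 4 + 4 * r)) / (n : ℝ) ^ (k + r) := by
          apply div_le_div_of_nonneg_right _ (by positivity)
          exact Real.exp_le_exp.2 hx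
        gcongr
        exact hqp.trans h1
    _ = C * (Real.exp (-(k : ℝ) - (1 - 1 / 2) * (k : ℝ) ^ 3 / (6 * (n : ℝ) ^ 2) - e * k) *
          Real.exp (e * k + (|l| * r + 4 + 4 * r)) * Real.exp k) := by
        rw [pow_add]
        field_simp
    _ = C * Real.exp (|l| * r + 4 + 4 * r) * Real.exp (-((k : ℝ) ^ 3 / (12 * (n : ℝ) ^ 2))) := by
        rw [← Real.exp_add, ← Real.exp_add, mul_assoc, ← Real.exp_add]
        congr 2
        field_simp
        ring

end Pool.Agent.Helper26.AL
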