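import Mathlib
import Pool.Agent.Helper26.AL.GoalsB
import Pool.Agent.Helper28.AF.PMC

/-! Project AL: packet EEQ. -/

namespace Pool.Agent.Helper26.AL

open Finset Filter Topology Pool.Agent.Helper26.AF

lemma eeq_none (r : ℕ) : eo none r = ee r := by
  have hPMC : StmtPMC := Pool.Agent.Helper28.AF.goalPMC
  have h1 : Nat.card {κ : Equiv.Perm (KX r) // IsPair κ ∧ EX none κ} =
      Nat.card {κ : Equiv.Perm (KX r) // IsPair κ} := by
    refine Nat.card_congr (Equiv.subtypeEquivRight ?_)
    intro κ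
    constructor
    · exact fun h => h.1
    · intro h
      refine ⟨h, ?_⟩
      intro g hg
      exact absurd hg (by simp)
  have h2 : Nat.card {κ : Equiv.Perm (KX r) // IsPair κ} =
      Nat.doubleFactorial (2 * (3 * r) - 1) := by
    apply hPMC
    simp [KX]
    ring
  have h3 : 2 * (3 * r) - 1 = 6 * r - 1 := by omega
  unfold eo ee
  rw [h1, h2, h3]

lemma eeq_some (g r : ℕ) : eo (some g) r = eg g r := by
  have h1 : Nat.card {κ : Equiv.Perm (KX r) // IsPair κ ∧ EX (some g) κ} =
      Nat.card {κ : Equiv.Perm (KX r) // IsPair κ ∧ EmbX g κ} := by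
    refine Nat.card_congr (Equiv.subtypeEquivRight ?_)
    intro κ
    constructor
    · exact fun h => ⟨h.1, h.2 g rfl⟩
    · rintro ⟨h, h'⟩
      refine ⟨h, ?_⟩
      intro g' hg
      have : g = g' := by simpa using hg
      subst this
      exact h'
  unfold eo eg
  rw [h1]

lemma eeq_ee0 : ee 0 = 1 := by
  unfold ee
  simp

lemma eeq_eg0 (g : ℕ) : eg g 0 = 1 := by
  have : IsEmpty (Fin (2 * 0)) := by
    rw [Nat.mul_zero]
    infer_instance
  have : IsEmpty (KX 0) := by
    unfold KX
    infer_instance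
  have h2 : ∀ κ : Equiv.Perm (KX 0), IsPair κ ∧ EmbX g κ := by
    intro κ
    refine ⟨fun x => isEmptyElim x, 1, ⟨fun x => isEmptyElim x, fun x => isEmptyElim x⟩, ?_⟩
    have h3 : cmq κ Prod.fst = 0 := by
      unfold cmq
      have : IsEmpty (Quot (fun a b : KX 0 => b = κ a ∨ Prod.fst b = Prod.fst a)) :=
        ⟨fun q => by
          obtain ⟨x, -⟩ := Quot.exists_rep q
          exact isEmptyElim x⟩
      exact Nat.card_of_isEmpty
    rw [h3]
    omega
  have h4 : Nat.card {κ : Equiv.Perm (KX 0) // IsPair κ ∧ EmbX g κ} = 1 := by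
    rw [Nat.card_congr (Equiv.subtypeUnivEquiv h2)]
    exact Nat.card_unique
  unfold eg
  rw [h4]
  simp

theorem goalEEQ : StmtEEQ := ⟨eeq_none, eeq_some, eeq_ee0, eeq_eg0⟩

end Pool.Agent.Helper26.AL
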