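import Mathlib
import Pool.Agent.Helper26.AL.GoalsA
import Pool.Agent.Helper26.AL.GoalsC
import Pool.Agent.Helper26.AF.Base

/-! Project AL: packet FIN (the main theorem from LIP, CTN, TRD, MONO). -/

namespace Pool.Agent.Helper26.AL

open Finset Filter Topology Pool.Agent.Helper26.AF

lemma prm_compl (n m : ℕ) (hm : m ≤ n.choose 2) (P : SimpleGraph (Fin n) → Prop) :
    prm n m P = 1 - prm n m (fun G => ¬ P G) := by
  classical
  unfold prm
  have h1 : Nat.card {G : SimpleGraph (Fin n) // ne G = m ∧ P G} +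
      Nat.card {G : SimpleGraph (Fin n) // ne G = m ∧ ¬ P G} =
      Nat.card {G : SimpleGraph (Fin n) // ne G = m} := by
    simp only [Nat.card_eq_fintype_card, Fintype.card_subtype]
    rw [← Finset.card_union_of_disjoint]
    · congr 1
      ext G
      simp only [mem_union, mem_filter, mem_univ, true_and]
      tauto
    · rw [Finset.disjoint_left]
      intro G
      simp only [mem_filter, mem_univ, true_and]
      tauto
  have h2 : 0 < Nat.card {G : SimpleGraph (Fin n) // ne G = m} := by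
    obtain ⟨T, hT, hTm⟩ := Finset.exists_subset_card_eq (s := EV (Fin n)) (n := m) (by
      rw [card_EV, Fintype.card_fin]; exact hm)
    have : Nonempty {G : SimpleGraph (Fin n) // ne G = m} :=
      ⟨⟨SimpleGraph.fromEdgeSet (T : Set (Sym2 (Fin n))), by rw [ne_fromEdgeSet hT, hTm]⟩⟩
    exact Nat.card_pos
  have h3 : (0 : ℝ) < (Nat.card {G : SimpleGraph (Fin n) // ne G = m} : ℝ) := by exact_mod_cast h2
  have h4 : ((Nat.card {G : SimpleGraph (Fin n) // ne G = m ∧ P G} : ℝ)) +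
      (Nat.card {G : SimpleGraph (Fin n) // ne G = m ∧ ¬ P G} : ℝ) =
      (Nat.card {G : SimpleGraph (Fin n) // ne G = m} : ℝ) := by exact_mod_cast h1
  field_simp
  linarith

theorem goalFIN (hLIP : StmtLIP) (hCTN : StmtCTN) (hTRD : StmtTRD) (hMONO : StmtMONO) : StmtFIN := by
  intro g l m hm
  have hinc : ∀ (n : ℕ) (G G' : SimpleGraph (Fin n)), G ≤ G' → ¬ Embeds G g → ¬ Embeds G' g :=
    fun n G G' h h1 h2 => h1 (hMONO (Fin n) G' G g h h2)
  set q : ℝ → ℝ := fun l => ∑' r, bb g r * JJ l r with hq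
  have hc : Continuous q := hCTN g
  rw [Metric.tendsto_nhds]
  intro ε hε
  obtain ⟨δ, hδ, hδc⟩ := Metric.continuous_iff.1 hc l (ε / 4) (by linarith)
  have hd2 : 0 < δ / 2 := by linarith
  have c1 : |q (l + δ / 2) - q l| < ε / 4 := by
    have := hδc (l + δ / 2) (by rw [Real.dist_eq]; simp [abs_of_pos hd2]; linarith)
    rwa [Real.dist_eq] at this
  have c2 : |q (l - δ / 2) - q l| < ε / 4 := by
    have := hδc (l - δ / 2) (by rw [Real.dist_eq]; simp [abs_of_pos hd2]; linarith)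
    rwa [Real.dist_eq] at this
  have t1 := (hLIP g (l + δ / 2)).2
  have t2 := (hLIP g (l - δ / 2)).2
  have e1 : ∀ᶠ n : ℕ in atTop, |Pr (pc (l + δ / 2) n) (fun G : SimpleGraph (Fin n) => Embeds G g)
      - q (l + δ / 2)| < ε / 4 := by
    have := Metric.tendsto_nhds.1 t1 (ε / 4) (by linarith)
    simpa [Real.dist_eq] using this
  have e2 : ∀ᶠ n : ℕ in atTop, |Pr (pc (l - δ / 2) n) (fun G : SimpleGraph (Fin n) => Embeds G g)
      - q (l - δ / 2)| < ε / 4 := by
    have := Metric.tendsto_nhds.1 t2 (ε / 4) (by linarith)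
    simpa [Real.dist_eq] using this
  have e3 := hTRD l (δ / 2) m hd2 hm (fun n G => ¬ Embeds G g) hinc (ε / 4) (by linarith)
  have e4 : ∀ᶠ n : ℕ in atTop, m n ≤ n.choose 2 := by
    have h1 := Metric.tendsto_nhds.1 hm 1 one_pos
    filter_upwards [h1, eventually_ge_atTop (10 * (⌈|l|⌉₊ + 10))] with n hn hnl
    rw [Real.dist_eq] at hn
    have hn0 : (0 : ℝ) < n := by
      have : 0 < n := by omega
      exact_mod_cast this
    have hn1 : (1 : ℝ) ≤ n := by
      have : 1 ≤ n := by omega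
      exact_mod_cast this
    have hlr : |l| ≤ (n : ℝ) / 10 := by
      have h2 : (10 * (⌈|l|⌉₊ + 10) : ℕ) ≤ n := hnl
      have h3 : (10 : ℝ) * (⌈|l|⌉₊ + 10) ≤ n := by exact_mod_cast h2
      have h4 := Nat.le_ceil |l|
      linarith
    have hn100 : (100 : ℝ) ≤ n := by
      have h2 : 100 ≤ n := by omega
      exact_mod_cast h2
    have hp : (n : ℝ) ^ ((2 : ℝ) / 3) ≤ n := by
      calc (n : ℝ) ^ ((2 : ℝ) / 3) ≤ (n : ℝ) ^ (1 : ℝ) :=
            Real.rpow_le_rpow_of_exponent_le hn1 (by norm_num)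
        _ = n := Real.rpow_one _
    have hpp : 0 < (n : ℝ) ^ ((2 : ℝ) / 3) := Real.rpow_pos_of_pos hn0 _
    have h5 : ((m n : ℝ) - n / 2) / (n : ℝ) ^ ((2 : ℝ) / 3) < l / 2 + 1 := by
      have := (abs_lt.1 hn).2
      linarith
    have h6 : (m n : ℝ) - n / 2 < (l / 2 + 1) * (n : ℝ) ^ ((2 : ℝ) / 3) := by
      rwa [div_lt_iff₀ hpp] at h5
    have h7 : (l / 2 + 1) * (n : ℝ) ^ ((2 : ℝ) / 3) ≤ (|l| / 2 + 1) * n := by
      have h8 : l / 2 + 1 ≤ |l| / 2 + 1 := by linarith [le_abs_self l]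
      calc (l / 2 + 1) * (n : ℝ) ^ ((2 : ℝ) / 3) ≤ (|l| / 2 + 1) * (n : ℝ) ^ ((2 : ℝ) / 3) :=
            mul_le_mul_of_nonneg_right h8 hpp.le
        _ ≤ _ := mul_le_mul_of_nonneg_left hp (by positivity)
    have h9 : (m n : ℝ) ≤ (n : ℝ) * (n - 1) / 2 := by nlinarith
    have h10 : ((n.choose 2 : ℕ) : ℝ) = (n : ℝ) * (n - 1) / 2 := by
      rw [Nat.cast_choose_two]
    rw [← h10] at h9
    exact_mod_cast h9
  filter_upwards [e1, e2, e3, e4] with n h1 h2 h3 h4
  have k1 := prm_compl n (m n) h4 (fun G => Embeds G g)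
  have k2 := Pr_compl (pc (l + δ / 2) n) (fun G : SimpleGraph (Fin n) => Embeds G g)
  have k3 := Pr_compl (pc (l - δ / 2) n) (fun G : SimpleGraph (Fin n) => Embeds G g)
  rw [Real.dist_eq]
  show |prm n (m n) (fun G => Embeds G g) - q l| < ε
  rw [k1]
  rw [abs_lt] at *
  constructor
  · linarith [h1.1, h1.2, h2.1, h2.2, h3.1, h3.2, c1.1, c1.2, c2.1, c2.2]
  · linarith [h1.1, h1.2, h2.1, h2.2, h3.1, h3.2, c1.1, c1.2, c2.1, c2.2]

end Pool.Agent.Helper26.AL
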