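import Mathlib
import Pool.Agent.Helper26.AL.GoalsC

/-! Project AL: packet GAI (a Gaussian integral). -/

namespace Pool.Agent.Helper26.AL

open Finset Filter Topology Pool.Agent.Helper26.AF MeasureTheory

theorem goalGAI : StmtGAI := by
  intro r hr
  have hr0 : (0 : ℝ) < r := by exact_mod_cast hr
  set s : ℝ := 3 * (r : ℝ) / 2 with hs
  have hs0 : 0 < s := by rw [hs]; positivity
  have h1 : (∫ y in Set.Ioi (0 : ℝ), y ^ (3 * r) * (Real.exp (-(y ^ 2) / 2) / Real.sqrt (2 * Real.pi)))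
      = (∫ y in Set.Ioi (0 : ℝ), y ^ (2 * s) * Real.exp (-(1 / 2) * y ^ (2 : ℝ))) /
        Real.sqrt (2 * Real.pi) := by
    rw [← integral_div]
    refine setIntegral_congr_fun measurableSet_Ioi fun y hy => ?_
    have e1 : y ^ (2 * s) = y ^ (3 * r) := by
      rw [← Real.rpow_natCast]
      congr 1
      rw [hs]; push_cast; ring
    have e2 : -(y ^ 2) / 2 = -(1 / 2) * y ^ (2 : ℝ) := by
      rw [Real.rpow_two]; ring
    change y ^ (3 * r) * (Real.exp (-(y ^ 2) / 2) / Real.sqrt (2 * Real.pi)) =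
      y ^ (2 * s) * Real.exp (-(1 / 2) * y ^ (2 : ℝ)) / Real.sqrt (2 * Real.pi)
    rw [e1, e2]
    ring
  rw [h1, integral_rpow_mul_exp_neg_mul_rpow (by norm_num) (by linarith) (by norm_num)]
  have h2 := Real.Gamma_mul_Gamma_add_half_of_pos hs0
  have h3 : Real.Gamma (2 * s) = ((3 * r - 1).factorial : ℝ) := by
    have : 2 * s = ((3 * r - 1 : ℕ) : ℝ) + 1 := by
      rw [hs]
      have : (3 * r - 1 : ℕ) + 1 = 3 * r := by omega
      have h4 : ((3 * r - 1 : ℕ) : ℝ) + 1 = 3 * r := by exact_mod_cast this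
      rw [h4]; ring
    rw [this, Real.Gamma_nat_eq_factorial]
  rw [h3] at h2
  have e3 : (2 * s + 1) / 2 = s + 1 / 2 := by ring
  have e4 : (1 / 2 : ℝ) ^ (-(2 * s + 1) / 2) = 2 ^ s * 2 ^ ((1 : ℝ) / 2) := by
    rw [one_div, Real.inv_rpow (by norm_num), ← Real.rpow_neg (by norm_num),
      ← Real.rpow_add (by norm_num)]
    congr 1
    ring
  rw [e3, e4]
  have e5 : (2 : ℝ) ^ (1 - 2 * s) = 2 / (2 ^ s * 2 ^ s) := by
    rw [Real.rpow_sub (by norm_num), Real.rpow_one, ← Real.rpow_add (by norm_num)]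
    congr 1
    congr 1
    ring
  rw [e5] at h2
  have hG : 0 < Real.Gamma s := Real.Gamma_pos_of_pos hs0
  have h2s : (0 : ℝ) < 2 ^ s := Real.rpow_pos_of_pos (by norm_num) _
  have hpi : Real.sqrt (2 * Real.pi) = 2 ^ ((1 : ℝ) / 2) * Real.sqrt Real.pi := by
    rw [Real.sqrt_mul (by norm_num), Real.sqrt_eq_rpow 2]
  have hsp : 0 < Real.sqrt Real.pi := Real.sqrt_pos.2 Real.pi_pos
  have h2h : (0 : ℝ) < 2 ^ ((1 : ℝ) / 2) := Real.rpow_pos_of_pos (by norm_num) _
  rw [hpi]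
  have h6 : Real.Gamma (s + 1 / 2) = ((3 * r - 1).factorial : ℝ) * (2 / (2 ^ s * 2 ^ s)) *
      Real.sqrt Real.pi / Real.Gamma s := by
    field_simp
    field_simp at h2
    linarith
  rw [h6]
  field_simp

end Pool.Agent.Helper26.AL
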