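import Mathlib
import Pool.Agent.Helper26.AL.GoalsC
import Pool.Agent.Helper26.AF.Goals3

/-! Project AL: packet GAU. -/

namespace Pool.Agent.Helper26.AL

open Finset Filter Topology Pool.Agent.Helper26.AF MeasureTheory

open Classical in
/-- The rescaled terms. -/
noncomputable def gauF (r : ℕ) (h : ℕ → ℝ) (k s : ℕ) : ℝ :=
  if 1 ≤ s ∧ s ≤ k then (h s / ((s.factorial : ℝ) * (s : ℝ) ^ (3 * r - 1))) *
    ((s : ℝ) / Real.sqrt k) ^ (3 * r) *
    ((k : ℝ) ^ (k - s) * Real.exp (-(k : ℝ)) * Real.sqrt k / ((k - s).factorial : ℝ)) else 0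

lemma gau_term (r : ℕ) (hr : 1 ≤ r) (h : ℕ → ℝ) (k s : ℕ) (hs : 1 ≤ s) (hsk : s ≤ k) :
    (k.choose s : ℝ) * h s * (s * (k : ℝ) ^ (k - s)) / (k * nrm (3 * (r : ℝ) / 2) k) =
      1 / Real.sqrt k * gauF r h k s := by
  have hk : (0 : ℝ) < k := by exact_mod_cast (by omega : 0 < k)
  have hs0 : (0 : ℝ) < s := by exact_mod_cast (by omega : 0 < s)
  unfold gauF
  rw [if_pos ⟨hs, hsk⟩]
  have e1 : (k.choose s : ℝ) * ((s.factorial : ℝ) * ((k - s).factorial : ℝ)) = (k.factorial : ℝ) := by
    have := Nat.choose_mul_factorial_mul_factorial hsk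
    have h2 : ((k.choose s * s.factorial * (k - s).factorial : ℕ) : ℝ) = (k.factorial : ℝ) := by
      rw [this]
    push_cast at h2
    linarith
  have p1 : (0 : ℝ) < (s.factorial : ℝ) := by exact_mod_cast Nat.factorial_pos _
  have p2 : (0 : ℝ) < ((k - s).factorial : ℝ) := by exact_mod_cast Nat.factorial_pos _
  have p3 : (0 : ℝ) < (k.factorial : ℝ) := by exact_mod_cast Nat.factorial_pos _
  have p4 : 0 < Real.sqrt k := Real.sqrt_pos.2 hk
  have e2 : (k : ℝ) * (k : ℝ) ^ (3 * (r : ℝ) / 2 - 1) = Real.sqrt k ^ (3 * r) := by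
    have : (k : ℝ) * (k : ℝ) ^ (3 * (r : ℝ) / 2 - 1) = (k : ℝ) ^ (3 * (r : ℝ) / 2) := by
      rw [Real.rpow_sub hk, Real.rpow_one]
      field_simp
    rw [this, Real.sqrt_eq_rpow, ← Real.rpow_natCast, ← Real.rpow_mul hk.le]
    congr 1
    push_cast
    ring
  have e3 : (s : ℝ) ^ (3 * r) = s * (s : ℝ) ^ (3 * r - 1) := by
    rw [← pow_succ']
    congr 1
    omega
  have e4 : (k.choose s : ℝ) = (k.factorial : ℝ) / ((s.factorial : ℝ) * ((k - s).factorial : ℝ)) := by
    rw [eq_div_iff (by positivity)]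
    exact e1
  unfold nrm
  have e5 : (k : ℝ) * ((k.factorial : ℝ) * Real.exp k * (k : ℝ) ^ (3 * (r : ℝ) / 2 - 1)) =
      (k.factorial : ℝ) * Real.exp k * Real.sqrt k ^ (3 * r) := by
    rw [← e2]; ring
  rw [e5, e4, div_pow, e3, Real.exp_neg]
  have p5 : (0 : ℝ) < (s : ℝ) ^ (3 * r - 1) := by positivity
  have p6 : (0 : ℝ) < Real.sqrt k ^ (3 * r) := by positivity
  have p7 := Real.exp_pos (k : ℝ)
  field_simp

theorem goalGAU (hRS : StmtRS) (hGST : StmtGST) (hGAI : StmtGAI) (hPOI : StmtPOI) : StmtGAU := by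
  intro r κ h c hr hκ hc
  -- bound of the first factor
  obtain ⟨B, hB⟩ : ∃ B, ∀ s : ℕ, |h s / ((s.factorial : ℝ) * (s : ℝ) ^ (3 * r - 1))| ≤ B := by
    have := hκ.abs
    obtain ⟨B, hB⟩ := this.bddAbove_range
    exact ⟨B, fun s => hB ⟨s, rfl⟩⟩
  have hB0 : 0 ≤ B := le_trans (abs_nonneg _) (hB 0)
  obtain ⟨C, hC, hP⟩ := hPOI (1 / 2) (by norm_num) (by norm_num)
  set D : ℝ → ℝ := fun x => B * ((3 * r).factorial : ℝ) * C * Real.exp 2 *
    Real.exp (-(1 / 4) * (x - 2) ^ 2) with hD
  have hDi : IntegrableOn D (Set.Ioi 0) := by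
    have h1 : Integrable (fun x : ℝ => Real.exp (-(1 / 4) * x ^ 2)) :=
      integrable_exp_neg_mul_sq (by norm_num)
    exact ((h1.comp_sub_right 2).const_mul _).integrableOn
  have hmain := hRS (fun k => 1 / Real.sqrt k) (fun k s => gauF r h k s)
    (fun y => κ * (y ^ (3 * r) * (Real.exp (-(y ^ 2) / 2) / Real.sqrt (2 * Real.pi)))) D (fun k => k)
    (by
      filter_upwards [eventually_ge_atTop 1] with k hk
      have : (0 : ℝ) < k := by exact_mod_cast (by omega : 0 < k)
      exact one_div_pos.2 (Real.sqrt_pos.2 this))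
    (by
      have h1 : Tendsto (fun k : ℕ => Real.sqrt (k : ℝ)) atTop atTop :=
        Real.tendsto_sqrt_atTop.comp tendsto_natCast_atTop_atTop
      exact tendsto_const_nhds.div_atTop h1)
    hDi
    (by
      intro k s hs
      unfold gauF
      rw [if_neg]
      omega)
    (by
      filter_upwards [eventually_ge_atTop 1] with k hk s hs x hx1 hx2
      have hk0 : (0 : ℝ) < k := by exact_mod_cast (by omega : 0 < k)
      have hk1 : (1 : ℝ) ≤ k := by exact_mod_cast hk
      have hs1 : (1 : ℝ) ≤ s := by exact_mod_cast hs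
      have hsq : 0 < Real.sqrt k := Real.sqrt_pos.2 hk0
      have hsq1 : 1 ≤ Real.sqrt k := by rw [Real.one_le_sqrt]; exact hk1
      have hx0 : 0 < x := lt_of_le_of_lt (mul_nonneg (by positivity) (by linarith)) hx1
      have hDx : 0 ≤ D x := by rw [hD]; positivity
      by_cases hsk : s ≤ k
      · show |gauF r h k s| ≤ D x
        unfold gauF
        rw [if_pos ⟨hs, hsk⟩, abs_mul, abs_mul]
        have e1 := hP s k hs hsk
        have e2 : x ≤ s / Real.sqrt k := by
          rw [one_div, inv_mul_eq_div] at hx2; exact hx2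
        have e3 : (s : ℝ) / Real.sqrt k ≤ x + 1 := by
          have h3 : ((s : ℝ) - 1) / Real.sqrt k < x := by
            rw [one_div, inv_mul_eq_div] at hx1; exact hx1
          have h4 : (s : ℝ) / Real.sqrt k = ((s : ℝ) - 1) / Real.sqrt k + 1 / Real.sqrt k := by ring
          have h5 : 1 / Real.sqrt k ≤ 1 := by rw [div_le_one hsq]; exact hsq1
          linarith
        have e4 : |((s : ℝ) / Real.sqrt k) ^ (3 * r)| ≤ ((3 * r).factorial : ℝ) * Real.exp (x + 1) := by
          rw [abs_of_nonneg (by positivity)]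
          calc ((s : ℝ) / Real.sqrt k) ^ (3 * r) ≤ (x + 1) ^ (3 * r) :=
                pow_le_pow_left₀ (by positivity) e3 _
            _ ≤ _ := by
                have := Real.pow_div_factorial_le_exp (x + 1) (by linarith) (3 * r)
                rw [div_le_iff₀ (by exact_mod_cast Nat.factorial_pos _)] at this
                linarith
        have e5 : |(k : ℝ) ^ (k - s) * Real.exp (-(k : ℝ)) * Real.sqrt k / ((k - s).factorial : ℝ)| ≤
            C * Real.exp (-(x ^ 2 / 4)) := by
          rw [abs_of_nonneg (by positivity)]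
          have h6 : (k : ℝ) ^ (k - s) * Real.exp (-(k : ℝ)) * Real.sqrt k / ((k - s).factorial : ℝ) =
              ((k : ℝ) ^ (k - s) * Real.exp (-(k : ℝ)) / ((k - s).factorial : ℝ)) * Real.sqrt k := by
            ring
          rw [h6]
          calc ((k : ℝ) ^ (k - s) * Real.exp (-(k : ℝ)) / ((k - s).factorial : ℝ)) * Real.sqrt k
              ≤ (C * Real.exp (-(1 - 1 / 2) * (s : ℝ) ^ 2 / (2 * k)) / Real.sqrt k) * Real.sqrt k :=
                mul_le_mul_of_nonneg_right e1 hsq.le
            _ = C * Real.exp (-(1 - 1 / 2) * (s : ℝ) ^ 2 / (2 * k)) := by field_simp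
            _ ≤ _ := by
                apply mul_le_mul_of_nonneg_left _ hC.le
                apply Real.exp_le_exp.2
                have h7 : x ^ 2 ≤ ((s : ℝ) / Real.sqrt k) ^ 2 := pow_le_pow_left₀ hx0.le e2 2
                rw [div_pow, Real.sq_sqrt hk0.le] at h7
                have h8 : -(1 - 1 / 2) * (s : ℝ) ^ 2 / (2 * k) = -((s : ℝ) ^ 2 / k / 4) := by
                  field_simp
                  ring
                rw [h8]
                linarith
        have e6 : Real.exp (x + 1) * Real.exp (-(x ^ 2 / 4)) =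
            Real.exp 2 * Real.exp (-(1 / 4) * (x - 2) ^ 2) := by
          rw [← Real.exp_add, ← Real.exp_add]
          congr 1
          ring
        calc |h s / ((s.factorial : ℝ) * (s : ℝ) ^ (3 * r - 1))| * |((s : ℝ) / Real.sqrt k) ^ (3 * r)| *
              |(k : ℝ) ^ (k - s) * Real.exp (-(k : ℝ)) * Real.sqrt k / ((k - s).factorial : ℝ)|
            ≤ B * (((3 * r).factorial : ℝ) * Real.exp (x + 1)) * (C * Real.exp (-(x ^ 2 / 4))) := by
              apply mul_le_mul (mul_le_mul (hB s) e4 (abs_nonneg _) hB0) e5 (abs_nonneg _)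
              positivity
          _ = B * ((3 * r).factorial : ℝ) * C * (Real.exp (x + 1) * Real.exp (-(x ^ 2 / 4))) := by ring
          _ = D x := by rw [e6, hD]; ring
      · show |gauF r h k s| ≤ D x
        unfold gauF
        rw [if_neg (by omega), abs_zero]
        exact hDx)
    (by
      intro x hx κ' hκ'
      have h1 : Tendsto (fun k : ℕ => (κ' k : ℝ) / Real.sqrt k) atTop (𝓝 x) := by
        refine hκ'.congr fun k => ?_
        rw [one_div, inv_mul_eq_div]
      have hsq : Tendsto (fun k : ℕ => Real.sqrt (k : ℝ)) atTop atTop :=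
        Real.tendsto_sqrt_atTop.comp tendsto_natCast_atTop_atTop
      have h2 : Tendsto (fun k : ℕ => (κ' k : ℝ)) atTop atTop := by
        have h3 : Tendsto (fun k : ℕ => (κ' k : ℝ) / Real.sqrt k * Real.sqrt k) atTop atTop :=
          Tendsto.pos_mul_atTop hx h1 hsq
        refine h3.congr' ?_
        filter_upwards [eventually_ge_atTop 1] with k hk
        have : (0 : ℝ) < k := by exact_mod_cast (by omega : 0 < k)
        have := Real.sqrt_pos.2 this
        field_simp
      have h2' : Tendsto κ' atTop atTop := tendsto_natCast_atTop_iff.1 h2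
      have h3 := hκ.comp h2'
      have h4 := h1.pow (3 * r)
      have h5 := hGST κ' x hx h1
      have h6 := (h3.mul h4).mul h5
      have h7 : κ * x ^ (3 * r) * (Real.exp (-(x ^ 2) / 2) / Real.sqrt (2 * Real.pi)) =
          κ * (x ^ (3 * r) * (Real.exp (-(x ^ 2) / 2) / Real.sqrt (2 * Real.pi))) := by ring
      rw [h7] at h6
      refine h6.congr' ?_
      have e1 : ∀ᶠ k : ℕ in atTop, κ' k ≤ k := by
        have h8 : ∀ᶠ k : ℕ in atTop, (κ' k : ℝ) / Real.sqrt k < x + 1 :=
          h1.eventually (gt_mem_nhds (by linarith))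
        filter_upwards [h8, hsq.eventually_ge_atTop (x + 1), eventually_ge_atTop 1] with k h9 h10 h11
        have hk0 : (0 : ℝ) < k := by exact_mod_cast (by omega : 0 < k)
        have hs := Real.sqrt_pos.2 hk0
        rw [div_lt_iff₀ hs] at h9
        have h12 : (κ' k : ℝ) ≤ k := by
          calc (κ' k : ℝ) ≤ (x + 1) * Real.sqrt k := h9.le
            _ ≤ Real.sqrt k * Real.sqrt k := mul_le_mul_of_nonneg_right h10 hs.le
            _ = k := Real.mul_self_sqrt hk0.le
        exact_mod_cast h12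
      filter_upwards [e1, h2'.eventually_ge_atTop 1] with k h8 h9
      simp only [Function.comp_apply]
      unfold gauF
      rw [if_pos ⟨h9, h8⟩])
  unfold AS
  have hval : (∫ x in Set.Ioi (0 : ℝ), κ * (x ^ (3 * r) * (Real.exp (-(x ^ 2) / 2) /
      Real.sqrt (2 * Real.pi)))) = κ * ((3 * r - 1).factorial : ℝ) /
        (2 ^ (3 * (r : ℝ) / 2) * Real.Gamma (3 * (r : ℝ) / 2)) := by
    rw [integral_const_mul, hGAI r hr, ← mul_div_assoc]
  rw [hval] at hmain
  refine hmain.congr' ?_
  filter_upwards [eventually_ge_atTop 1] with k hk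
  have hk0 : (0 : ℝ) < k := by exact_mod_cast (by omega : 0 < k)
  have h1 : c k = (∑ s ∈ Icc 1 k, (k.choose s : ℝ) * h s * (s * (k : ℝ) ^ (k - s))) / k := by
    rw [eq_div_iff hk0.ne', hc k]
  rw [h1, div_div, sum_div, mul_sum]
  refine sum_congr rfl fun s hs => ?_
  rw [mem_Icc] at hs
  exact (gau_term r hr h k s hs.1 hs.2).symm

end Pool.Agent.Helper26.AL
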