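import Mathlib
import Pool.Agent.Helper26.AL.GoalsC

/-! Project AL: packet RS (Riemann sums). -/

namespace Pool.Agent.Helper26.AL

open Finset Filter Topology Pool.Agent.Helper26.AF MeasureTheory

section

variable (h : ℕ → ℝ) (F : ℕ → ℕ → ℝ) (K : ℕ → ℕ)

/-- The step function. -/
noncomputable def stp (n : ℕ) (x : ℝ) : ℝ :=
  ∑ k ∈ Icc 1 (K n), (Set.Ioc (h n * ((k : ℝ) - 1)) (h n * k)).indicator (fun _ => F n k) x

lemma ceil_facts {a x : ℝ} (ha : 0 < a) (hx : 0 < x) :
    1 ≤ ⌈x / a⌉₊ ∧ a * ((⌈x / a⌉₊ : ℝ) - 1) < x ∧ x ≤ a * ⌈x / a⌉₊ := by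
  have h1 : 0 < x / a := div_pos hx ha
  have h2 : 1 ≤ ⌈x / a⌉₊ := Nat.one_le_iff_ne_zero.2 (by
    intro h0; rw [Nat.ceil_eq_zero] at h0; linarith)
  have h3 := Nat.ceil_lt_add_one h1.le
  have h4 := Nat.le_ceil (x / a)
  refine ⟨h2, ?_, ?_⟩
  · have : (⌈x / a⌉₊ : ℝ) - 1 < x / a := by linarith
    rw [lt_div_iff₀ ha] at this
    linarith
  · rw [div_le_iff₀ ha] at h4
    linarith

lemma stp_eq (hF : ∀ n k, K n < k → F n k = 0) {n : ℕ} (hn : 0 < h n) {x : ℝ} (hx : 0 < x) :
    stp h F K n x = F n ⌈x / h n⌉₊ := by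
  obtain ⟨h1, h2, h3⟩ := ceil_facts hn hx
  set κ := ⌈x / h n⌉₊ with hκ
  have huniq : ∀ k : ℕ, k ≠ κ →
      (Set.Ioc (h n * ((k : ℝ) - 1)) (h n * k)).indicator (fun _ => F n k) x = 0 := by
    intro k hk
    rw [Set.indicator_of_notMem]
    rintro ⟨h4, h5⟩
    apply hk
    have h6 : (k : ℝ) - 1 < κ := by
      have : h n * ((k : ℝ) - 1) < h n * κ := lt_of_lt_of_le h4 h3
      exact lt_of_mul_lt_mul_left this hn.le
    have h7 : (κ : ℝ) - 1 < k := by
      have : h n * ((κ : ℝ) - 1) < h n * k := lt_of_lt_of_le h2 h5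
      exact lt_of_mul_lt_mul_left this hn.le
    have h8 : k < κ + 1 := by exact_mod_cast (by linarith : (k : ℝ) < κ + 1)
    have h9 : κ < k + 1 := by exact_mod_cast (by linarith : (κ : ℝ) < k + 1)
    omega
  unfold stp
  by_cases hle : κ ≤ K n
  · rw [sum_eq_single κ]
    · rw [Set.indicator_of_mem]
      exact ⟨h2, h3⟩
    · intro k _ hk
      exact huniq k hk
    · intro hk
      exact absurd (mem_Icc.2 ⟨h1, hle⟩) hk
  · rw [hF n κ (by omega)]
    apply sum_eq_zero
    intro k hk
    apply huniq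
    rw [mem_Icc] at hk
    omega

lemma stp_int {n : ℕ} (hn : 0 < h n) :
    ∫ x in Set.Ioi (0 : ℝ), stp h F K n x = h n * ∑ k ∈ Icc 1 (K n), F n k := by
  have hi : ∀ k ∈ Icc 1 (K n), Integrable
      ((Set.Ioc (h n * ((k : ℝ) - 1)) (h n * k)).indicator (fun _ => F n k))
      (volume.restrict (Set.Ioi (0 : ℝ))) := by
    intro k _
    rw [integrable_indicator_iff measurableSet_Ioc]
    refine integrableOn_const ?_ (by simp)
    exact ne_of_lt (lt_of_le_of_lt (Measure.restrict_apply_le _ _) (by simp))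
  unfold stp
  rw [integral_finset_sum _ hi, mul_sum]
  refine sum_congr rfl fun k hk => ?_
  rw [mem_Icc] at hk
  have hk1 : (1 : ℝ) ≤ k := by exact_mod_cast hk.1
  rw [integral_indicator measurableSet_Ioc]
  rw [setIntegral_const]
  have h1 : Set.Ioc (h n * ((k : ℝ) - 1)) (h n * k) ⊆ Set.Ioi 0 := by
    intro x hx
    have : 0 ≤ h n * ((k : ℝ) - 1) := mul_nonneg hn.le (by linarith)
    exact lt_of_le_of_lt this hx.1
  rw [Measure.real, Measure.restrict_apply measurableSet_Ioc, Set.inter_eq_left.2 h1]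
  rw [Real.volume_Ioc]
  have h2 : h n * (k : ℝ) - h n * ((k : ℝ) - 1) = h n := by ring
  rw [h2, ENNReal.toReal_ofReal hn.le, smul_eq_mul]

end

theorem goalRS : StmtRS := by
  intro h F φ D K hpos hlim hD hF hdom hpt
  have h1 : Tendsto (fun n => ∫ x in Set.Ioi (0 : ℝ), stp h F K n x) atTop
      (𝓝 (∫ x in Set.Ioi (0 : ℝ), φ x)) := by
    apply tendsto_integral_filter_of_dominated_convergence D
    · refine Eventually.of_forall fun n => ?_
      apply Measurable.aestronglyMeasurable
      unfold stp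
      refine Finset.measurable_sum _ fun k _ => ?_
      exact measurable_const.indicator measurableSet_Ioc
    · filter_upwards [hpos, hdom] with n hn hd
      rw [ae_restrict_iff' measurableSet_Ioi]
      refine Eventually.of_forall fun x hx => ?_
      rw [stp_eq h F K hF hn hx, Real.norm_eq_abs]
      obtain ⟨h1, h2, h3⟩ := ceil_facts hn hx
      exact hd _ h1 x h2 h3
    · exact hD
    · rw [ae_restrict_iff' measurableSet_Ioi]
      refine Eventually.of_forall fun x hx => ?_
      have h2 : Tendsto (fun n => h n * (⌈x / h n⌉₊ : ℝ)) atTop (𝓝 x) := by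
        have h3 : Tendsto (fun n => x + h n) atTop (𝓝 (x + 0)) := hlim.const_add x
        rw [add_zero] at h3
        refine tendsto_of_tendsto_of_tendsto_of_le_of_le' tendsto_const_nhds h3 ?_ ?_
        · filter_upwards [hpos] with n hn
          exact (ceil_facts hn hx).2.2
        · filter_upwards [hpos] with n hn
          have := (ceil_facts hn hx).2.1
          nlinarith
      have h4 := hpt x hx _ h2
      refine h4.congr' ?_
      filter_upwards [hpos] with n hn
      rw [stp_eq h F K hF hn hx]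
  refine h1.congr' ?_
  filter_upwards [hpos] with n hn
  rw [stp_int h F K hn]

end Pool.Agent.Helper26.AL
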