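import Mathlib
import Pool.Agent.Helper26.AL.GoalsA
import Pool.Agent.Helper26.AL.GoalsB
import Pool.Agent.Helper26.AL.GoalsC

/-! Project AL: packet TLM. -/

namespace Pool.Agent.Helper26.AL

open Finset Filter Topology Pool.Agent.Helper26.AF

lemma bb_zero (hEEQ : StmtEEQ) (g : ℕ) : bb g 0 = 1 := by
  unfold bb
  rw [PowerSeries.coeff_zero_eq_constantCoeff_apply, map_mul, PowerSeries.constantCoeff_inv,
    ← PowerSeries.coeff_zero_eq_constantCoeff_apply, ← PowerSeries.coeff_zero_eq_constantCoeff_apply,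
    PowerSeries.coeff_mk, PowerSeries.coeff_mk, hEEQ.2.2.1, hEEQ.2.2.2 g]
  norm_num

lemma mg_zero (hCXN : StmtCXN) (g k : ℕ) (hk : 1 ≤ k) : mg g k 0 = 0 := by
  classical
  unfold mg
  refine sum_eq_zero fun j hj => ?_
  rw [mem_range] at hj
  apply mul_eq_zero_of_right
  refine sum_eq_zero fun H₁ _ => sum_eq_zero fun H₂ _ => ?_
  rw [if_neg]
  rintro ⟨h1, _, h2, h3⟩
  have e1 := hCXN _ H₁ h1
  have e2 := hCXN _ H₂ h2
  rw [Fintype.card_fin] at e1 e2
  by_cases hj0 : j = 0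
  · subst hj0
    have : Nonempty (Fin (k - 0)) := ⟨⟨0, by omega⟩⟩
    have := e2.2.1 this
    have := e1.1
    omega
  · have : Nonempty (Fin j) := ⟨⟨0, by omega⟩⟩
    have := e1.2.1 this
    have := e2.1
    omega

lemma ne_fin_zero (G : SimpleGraph (Fin 0)) : ne G = 0 := by
  unfold ne
  have : IsEmpty G.edgeSet := by
    refine ⟨fun e => ?_⟩
    obtain ⟨e, he⟩ := e
    induction e using Sym2.ind with
    | _ x y => exact x.elim0
  exact Nat.card_of_isEmpty

lemma cxg_fin_zero (G : SimpleGraph (Fin 0)) : CXG G := by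
  rintro Q ⟨c, _⟩
  induction c using SimpleGraph.ConnectedComponent.ind with
  | _ v => exact v.elim0

lemma cc_fin_zero (G : SimpleGraph (Fin 0)) : cc G = 0 := by
  unfold cc
  have : IsEmpty G.ConnectedComponent := by
    refine ⟨fun c => ?_⟩
    induction c using SimpleGraph.ConnectedComponent.ind with
    | _ v => exact v.elim0
  exact Nat.card_of_isEmpty

lemma embeds_fin_zero (G : SimpleGraph (Fin 0)) (g : ℕ) : Embeds G g := by
  refine ⟨1, ⟨fun d => rfl, fun d => ?_⟩, ?_⟩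
  · exact d.fst.elim0
  · have := cc_fin_zero G
    unfold cc at this
    rw [this, ne_fin_zero]
    omega

lemma mg_zero_zero (g : ℕ) : mg g 0 0 = 1 := by
  classical
  unfold mg
  rw [zero_add, sum_range_one]
  have h1 : ∀ j : ℕ, j = 0 → ∀ (H₁ H₂ : SimpleGraph (Fin j)),
      (CXG H₁ ∧ Embeds H₁ g ∧ CXG H₂ ∧ ne H₁ + ne H₂ = 0 + 0) ∧ cc H₂ = 0 := by
    rintro j rfl H₁ H₂
    exact ⟨⟨cxg_fin_zero _, embeds_fin_zero _ _, cxg_fin_zero _, by
      rw [ne_fin_zero, ne_fin_zero]⟩, cc_fin_zero _⟩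
  have h2 : ∀ H₁ : SimpleGraph (Fin 0), ∀ H₂ : SimpleGraph (Fin (0 - 0)),
      (if CXG H₁ ∧ Embeds H₁ g ∧ CXG H₂ ∧ ne H₁ + ne H₂ = 0 + 0 then (-1 : ℝ) ^ cc H₂ else 0) = 1 := by
    intro H₁ H₂
    have := h1 0 rfl H₁ H₂
    rw [if_pos this.1, this.2, pow_zero]
  rw [Nat.choose_self, Nat.cast_one, one_mul]
  rw [sum_congr rfl fun H₁ _ => sum_congr rfl fun H₂ _ => h2 H₁ H₂]
  have hu : ∀ H : SimpleGraph (Fin 0), H = ⊥ := by
    intro H
    ext x y
    exact x.elim0
  have hc : Fintype.card (SimpleGraph (Fin 0)) = 1 := by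
    rw [Fintype.card_eq_one_iff]
    exact ⟨⊥, hu⟩
  simp only [sum_const, card_univ, nsmul_eq_mul, mul_one]
  have hc' : Fintype.card (SimpleGraph (Fin (0 - 0))) = 1 := hc
  rw [hc']
  norm_num

theorem goalTLM (hMAS : StmtMAS) (hRIE : StmtRIE) (hCXN : StmtCXN) (hEEQ : StmtEEQ) : StmtTLM := by
  intro g l r
  rcases Nat.eq_zero_or_pos r with rfl | hr
  · have h1 : ∀ n : ℕ, TN n (pc l n) g 0 = 1 := by
      intro n
      unfold TN
      rw [sum_eq_single 0]
      · rw [mg_zero_zero]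
        simp [MM]
      · intro k _ hk
        rw [mg_zero hCXN g k (Nat.pos_of_ne_zero hk)]
        ring
      · intro h; exact absurd (mem_range.2 (Nat.succ_pos n)) h
    simp only [h1]
    rw [bb_zero hEEQ]
    unfold JJ
    simp
  · have h2 := hRIE l r (fun k => mg g k r) (bb g r) hr (hMAS g r hr)
    refine h2.congr ?_
    intro n
    unfold TN
    have h3 : mg g 0 r = 0 := by
      classical
      unfold mg
      refine sum_eq_zero fun j hj => ?_
      apply mul_eq_zero_of_right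
      refine sum_eq_zero fun H₁ _ => sum_eq_zero fun H₂ _ => ?_
      rw [if_neg]
      rintro ⟨_, _, _, h4⟩
      rw [mem_range] at hj
      have hj0 : j = 0 := by omega
      subst hj0
      have e1 := ne_fin_zero H₁
      have e2 : ne H₂ = 0 := ne_fin_zero H₂
      omega
    rw [Finset.range_eq_Ico, Finset.sum_eq_sum_Ico_succ_bot (Nat.succ_pos n), h3]
    rw [mul_zero, mul_zero, zero_add]
    rfl

end Pool.Agent.Helper26.AL
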