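import Mathlib
import Pool.Agent.Helper26.AF.All
import Pool.Agent.Helper26.AL.GoalsA
import Pool.Agent.Helper26.AL.GoalsB
import Pool.Agent.Helper26.AL.GoalsC
import Pool.Agent.Helper8.AL.INV
import Pool.Agent.Helper22.AL.SUX
import Pool.Agent.Helper23.AL.GRX
import Pool.Agent.Helper23.AL.PEN
import Pool.Agent.Helper24.AL.FU
import Pool.Agent.Helper26.AL.CAS
import Pool.Agent.Helper26.AL.CTN
import Pool.Agent.Helper26.AL.DOM
import Pool.Agent.Helper26.AL.EEQ
import Pool.Agent.Helper26.AL.EXE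
import Pool.Agent.Helper26.AL.FIN
import Pool.Agent.Helper26.AL.GAI
import Pool.Agent.Helper26.AL.GAU
import Pool.Agent.Helper26.AL.RS
import Pool.Agent.Helper26.AL.TLM
import Pool.Agent.Helper35.AL.BIJ
import Pool.Agent.Helper35.AL.JCO
import Pool.Agent.Helper36.AL.FUN
import Pool.Agent.Helper36.AL.RIE
import Pool.Agent.Helper45.AL.CLO
import Pool.Agent.Helper45.AL.GLU
import Pool.Agent.Helper45.AL.TAI
import Pool.Agent.Helper47.AL.FDC
import Pool.Agent.Helper47.AL.GST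
import Pool.Agent.Helper47.AL.LIP
import Pool.Agent.Helper49.AL.CXN
import Pool.Agent.Helper49.AL.LFG
import Pool.Agent.Helper49.AL.PW2
import Pool.Agent.Helper50.AL.DAS
import Pool.Agent.Helper56.AL.CNV
import Pool.Agent.Helper56.AL.FDB
import Pool.Agent.Helper56.AL.UPE
import Pool.Agent.Helper57.AL.TRD
import Pool.Agent.Helper74.AL.ISO
import Pool.Agent.Helper74.AL.LMT
import Pool.Agent.Helper74.AL.PW1
import Pool.Agent.Helper79.AL.LFC
import Pool.Agent.Helper79.AL.PAX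
import Pool.Agent.Helper81.AL.KAS
import Pool.Agent.Helper81.AL.MGE
import Pool.Agent.Helper81.AL.NCU
import Pool.Agent.Helper84.AL.EQC
import Pool.Agent.Helper85.AL.CNX
import Pool.Agent.Helper85.AL.MAS
import Pool.Agent.Helper96.AL.INV0
import Pool.Agent.Helper96.AL.PAV
import Pool.Agent.Helper98.AL.FDA
import Pool.Agent.Helper98.AL.TRX

/-!
Project AL (MP_af6c86_pr): the packets put together.
-/

namespace Pool.Agent.Helper26.AL

open Pool.Agent.Helper26.AF

lemma okISO : StmtISO := Pool.Agent.Helper74.AL.goalISO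
lemma okGLU : StmtGLU := Pool.Agent.Helper45.AL.goalGLU
lemma okPEN : StmtPEN := Pool.Agent.Helper23.AL.goalPEN
lemma okLFC : StmtLFC := Pool.Agent.Helper79.AL.goalLFC
lemma okINV0 : StmtINV0 := Pool.Agent.Helper96.AL.goalINV0 okISO
lemma okLFG : StmtLFG := Pool.Agent.Helper49.AL.goalLFG okISO okPEN okLFC okMONO
lemma okFDB : StmtFDB := Pool.Agent.Helper56.AL.goalFDB okLFG okINV0
lemma okFDA : StmtFDA := Pool.Agent.Helper98.AL.goalFDA okLFG okINV0
lemma okFDC : StmtFDC := Pool.Agent.Helper47.AL.goalFDC okFDA okFDB okFOR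
lemma okCXN : StmtCXN := Pool.Agent.Helper49.AL.goalCXN
lemma okCLO : StmtCLO := Pool.Agent.Helper45.AL.goalCLO
lemma okPW1 : StmtPW1 := Pool.Agent.Helper74.AL.goalPW1 okCLO
lemma okPW2 : StmtPW2 := Pool.Agent.Helper49.AL.goalPW2 okCLO
lemma okFU : StmtFU := Pool.Agent.Helper24.AL.goalFU okCYL
lemma okFUN : StmtFUN := Pool.Agent.Helper36.AL.goalFUN okFU
lemma okMGE : StmtMGE := Pool.Agent.Helper81.AL.goalMGE okCXN
lemma okTAI : StmtTAI := Pool.Agent.Helper45.AL.goalTAI okFUN okPW1 okPW2 okCXN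
lemma okEXE : StmtEXE := goalEXE okCMP Pool.Agent.Helper57.AF.goalTUPC
lemma okUPE : StmtUPE := Pool.Agent.Helper56.AL.goalUPE okEXE okFAL okWR
lemma okEQC : StmtEQC := Pool.Agent.Helper84.AL.goalEQC okGLU okISO okCLO okMONO okUG
lemma okPAV : StmtPAV := Pool.Agent.Helper96.AL.goalPAV
lemma okNCU : StmtNCU := Pool.Agent.Helper81.AL.goalNCU okPAV okNPC
lemma okGRX : StmtGRX := Pool.Agent.Helper23.AL.goalGRX
lemma okPAX : StmtPAX := Pool.Agent.Helper79.AL.goalPAX
lemma okSUX : StmtSUX := Pool.Agent.Helper22.AL.goalSUX okINS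
lemma okCNX : StmtCNX := Pool.Agent.Helper85.AL.goalCNX okSUX okNPC okPMC
lemma okTRX : StmtTRX := Pool.Agent.Helper98.AL.goalTRX okINV0
lemma okKAS : StmtKAS := Pool.Agent.Helper81.AL.goalKAS okGRX okPAX okCNX okTRX okNCU
lemma okEEQ : StmtEEQ := goalEEQ
lemma okRS : StmtRS := goalRS
lemma okGST : StmtGST := Pool.Agent.Helper47.AL.goalGST
lemma okGAI : StmtGAI := goalGAI
lemma okGAU : StmtGAU := goalGAU okRS okGST okGAI okPOI
lemma okCNV : StmtCNV := Pool.Agent.Helper56.AL.goalCNV okRS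
lemma okLMT : StmtLMT := Pool.Agent.Helper74.AL.goalLMT
lemma okDOM : StmtDOM := goalDOM
lemma okRIE : StmtRIE := Pool.Agent.Helper36.AL.goalRIE okRS okLMT okDOM
lemma okCAS : StmtCAS := goalCAS okFDC okKAS okGAU
lemma okBIJ : StmtBIJ := Pool.Agent.Helper35.AL.goalBIJ okFU
lemma okINV : StmtINV := Pool.Agent.Helper8.AL.goalINV okBIJ okCLO okCXN
lemma okJCO : StmtJCO := Pool.Agent.Helper35.AL.goalJCO
lemma okDAS : StmtDAS := Pool.Agent.Helper50.AL.goalDAS okINV okEEQ okCXN okCNV okCAS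
lemma okMAS : StmtMAS := Pool.Agent.Helper85.AL.goalMAS okMGE okEEQ okCXN okCNV okCAS okDAS
lemma okTLM : StmtTLM := goalTLM okMAS okRIE okCXN okEEQ
lemma okLIP : StmtLIP := Pool.Agent.Helper47.AL.goalLIP okTLM okTAI okEQC okUPE okUPP okJCO
lemma okCTN : StmtCTN := goalCTN okJCO okLIP
lemma okTRD : StmtTRD := Pool.Agent.Helper57.AL.goalTRD Pool.Agent.Helper57.AF.goalTR1 okCHE
lemma okFIN : StmtFIN := goalFIN okLIP okCTN okTRD okMONO

end Pool.Agent.Helper26.AL
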