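import Mathlib
import Pool.Agent.Helper26.AL.All

/-!
Project AL (MP_af6c86_pr): the theorem.
-/

namespace Pool.Agent.Helper26.AL

open Filter Topology Pool.Agent.Helper26.AF

theorem allLIMIT (g : ℕ) (l : ℝ) :
    Summable (fun r : ℕ => |bb g r * JJ l r|) ∧
    ∀ m : ℕ → ℕ,
      Tendsto (fun n : ℕ => ((m n : ℝ) - n / 2) / (n : ℝ) ^ ((2 : ℝ) / 3)) atTop (𝓝 (l / 2)) →
      Tendsto (fun n : ℕ => prm n (m n) (fun G => Embeds G g)) atTop
        (𝓝 (∑' r : ℕ, bb g r * JJ l r)) := by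
  refine ⟨?_, fun m hm => okFIN g l m hm⟩
  refine (okLIP g l).1.congr fun r => ?_
  rw [abs_mul, abs_of_nonneg ((okJCO r).2.1 l)]

end Pool.Agent.Helper26.AL
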